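import Pool.Agent.H476Z.BK.Ideal

set_option autoImplicit false

namespace Pool.Agent.H476Z.BK

open ExteriorAlgebra Module

variable {k : Type*} [Field k] {V : Type*} [AddCommGroup V] [Module k V]

/-- The wedge product of a linear form and an alternating form. -/
noncomputable def wedge {i : ℕ} (ξ : Dual k V) (ω : V [⋀^Fin i]→ₗ[k] k) :
    V [⋀^Fin (i + 1)]→ₗ[k] k :=
  AlternatingMap.alternatizeUncurryFin (ξ.smulRight ω)

lemma wedge_apply {i : ℕ} (ξ : Dual k V) (ω : V [⋀^Fin i]→ₗ[k] k) (v : Fin (i + 1) → V) :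
    wedge ξ ω v = ∑ j : Fin (i + 1), (-1) ^ (j : ℕ) * (ξ (v j) * ω (j.removeNth v)) := by
  simp [wedge, AlternatingMap.alternatizeUncurryFin_apply]

lemma wedge_wedge_apply {i : ℕ} (ξ η : Dual k V) (ω : V [⋀^Fin i]→ₗ[k] k)
    (v : Fin (i + 2) → V) :
    wedge ξ (wedge η ω) v = ∑ s : Fin (i + 1), ∑ t ∈ Finset.Ici s, (-1) ^ ((s : ℕ) + t) *
      ((ξ (v s.castSucc) * η (v t.succ) - ξ (v t.succ) * η (v s.castSucc)) *
        ω (t.removeNth (s.castSucc.removeNth v))) := by
  have : ξ.smulRight (wedge η ω) =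
      AlternatingMap.alternatizeUncurryFinLM ∘ₗ ξ.smulRight (η.smulRight ω) := by
    ext x : 1
    simp [wedge]
  rw [wedge, this, AlternatingMap.alternatizeUncurryFin_alternatizeUncurryFinLM_comp_apply]
  refine Finset.sum_congr rfl fun s _ => Finset.sum_congr rfl fun t _ => ?_
  simp only [LinearMap.smulRight_apply, LinearMap.smul_apply, AlternatingMap.smul_apply,
    smul_eq_mul, zsmul_eq_mul, Int.cast_pow, Int.cast_neg, Int.cast_one]
  ring

/-- Families of alternating forms. -/
abbrev Fm (k : Type*) [Field k] (V : Type*) [AddCommGroup V] [Module k V] :=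
  (i : ℕ) → V [⋀^Fin i]→ₗ[k] k

/-- Wedge product on families. -/
noncomputable def wedgeFun (ξ : Dual k V) (ω : Fm k V) : Fm k V
  | 0 => 0
  | i + 1 => wedge ξ (ω i)

/-- Wedge product on families as a bilinear map. -/
noncomputable def wedgeOp : Dual k V →ₗ[k] Module.End k (Fm k V) :=
  LinearMap.mk₂ k wedgeFun
    (fun ξ η ω => by
      funext i; cases i
      · simp [wedgeFun]
      · ext v; simp [wedgeFun, wedge_apply, add_mul, mul_add, Finset.sum_add_distrib])
    (fun r ξ ω => by
      funext i; cases i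
      · simp [wedgeFun]
      · ext v
        simp only [wedgeFun, wedge_apply, Pi.smul_apply, AlternatingMap.smul_apply,
          LinearMap.smul_apply, smul_eq_mul, Finset.mul_sum]
        exact Finset.sum_congr rfl fun j _ => by ring)
    (fun ξ ω ω' => by
      funext i; cases i
      · simp [wedgeFun]
      · ext v; simp [wedgeFun, wedge_apply, mul_add, Finset.sum_add_distrib])
    (fun r ξ ω => by
      funext i; cases i
      · simp [wedgeFun]
      · ext v
        simp only [wedgeFun, wedge_apply, Pi.smul_apply, AlternatingMap.smul_apply,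
          smul_eq_mul, Finset.mul_sum]
        exact Finset.sum_congr rfl fun j _ => by ring)

lemma wedgeOp_sq (ξ : Dual k V) : wedgeOp ξ * wedgeOp ξ = 0 := by
  refine LinearMap.ext fun ω => ?_
  funext i
  change wedgeFun ξ (wedgeFun ξ ω) i = 0
  rcases i with _ | _ | i
  · rfl
  · ext v; simp [wedgeFun, wedge_apply]
  · ext v
    simp only [wedgeFun, wedge_wedge_apply, AlternatingMap.zero_apply]
    refine Finset.sum_eq_zero fun s _ => Finset.sum_eq_zero fun t _ => ?_
    ring

/-- The family `1`. -/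
noncomputable def oneFm : Fm k V
  | 0 => AlternatingMap.constOfIsEmpty k V (Fin 0) 1
  | _ + 1 => 0

/-- The alternating forms defined by an element of the exterior algebra of the dual. -/
noncomputable def form : ExteriorAlgebra k (Dual k V) →ₗ[k] Fm k V :=
  (LinearMap.applyₗ (oneFm (k := k) (V := V))).comp
    (ExteriorAlgebra.lift k ⟨wedgeOp, wedgeOp_sq⟩).toLinearMap

lemma form_ι_mul (ξ : Dual k V) (a : ExteriorAlgebra k (Dual k V)) :
    form (ι k ξ * a) = wedgeFun ξ (form a) := by
  simp only [form, LinearMap.comp_apply, AlgHom.toLinearMap_apply, map_mul, lift_ι_apply,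
    LinearMap.applyₗ_apply_apply, Module.End.mul_apply]
  rfl

lemma form_ι_mul_zero (ξ : Dual k V) (a : ExteriorAlgebra k (Dual k V)) :
    form (ι k ξ * a) 0 = 0 := by rw [form_ι_mul]; rfl

lemma form_ι_mul_succ (ξ : Dual k V) (a : ExteriorAlgebra k (Dual k V)) (i : ℕ) :
    form (ι k ξ * a) (i + 1) = wedge ξ (form a i) := by rw [form_ι_mul]; rfl

lemma form_one : form (1 : ExteriorAlgebra k (Dual k V)) = oneFm := by
  simp [form]

lemma form_algebraMap (r : k) :
    form (algebraMap k (ExteriorAlgebra k (Dual k V)) r) = r • oneFm := by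
  rw [Algebra.algebraMap_eq_smul_one, map_smul, form_one]

/-- Left contraction. -/
noncomputable def cL (x : V) :
    ExteriorAlgebra k (Dual k V) →ₗ[k] ExteriorAlgebra k (Dual k V) :=
  CliffordAlgebra.contractLeft (Q := (0 : QuadraticForm k (Dual k V))) (Dual.eval k V x)

lemma cL_ι_mul (x : V) (ξ : Dual k V) (b : ExteriorAlgebra k (Dual k V)) :
    cL x (ι k ξ * b) = ξ x • b - ι k ξ * cL x b :=
  CliffordAlgebra.contractLeft_ι_mul (Q := (0 : QuadraticForm k (Dual k V))) _ ξ b

lemma cL_algebraMap (x : V) (r : k) :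
    cL x (algebraMap k (ExteriorAlgebra k (Dual k V)) r) = 0 :=
  CliffordAlgebra.contractLeft_algebraMap (0 : QuadraticForm k (Dual k V)) _ r

lemma wedge_cons {i : ℕ} (ξ : Dual k V) (ω : V [⋀^Fin (i + 1)]→ₗ[k] k) (x : V)
    (v : Fin (i + 1) → V) :
    wedge ξ ω (Matrix.vecCons x v) = ξ x * ω v - wedge ξ (ω.curryLeft x) v := by
  rw [wedge_apply, wedge_apply, Fin.sum_univ_succ, sub_eq_add_neg, ← Finset.sum_neg_distrib]
  congr 1
  · simp [Matrix.vecCons]
  · refine Finset.sum_congr rfl fun j _ => ?_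
    have : j.succ.removeNth (Matrix.vecCons x v) = Matrix.vecCons x (j.removeNth v) := by
      funext t
      refine Fin.cases ?_ (fun t => ?_) t
      · simp [Fin.removeNth]
      · simp [Fin.removeNth]
    rw [this]
    simp only [Fin.val_succ, Matrix.cons_val_succ, AlternatingMap.curryLeft_apply_apply]
    ring

lemma form_cL (x : V) (a : ExteriorAlgebra k (Dual k V)) :
    ∀ (i : ℕ) (v : Fin i → V), form (cL x a) i v = form a (i + 1) (Matrix.vecCons x v) := by
  induction a using CliffordAlgebra.left_induction with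
  | algebraMap r =>
    intro i v
    rw [cL_algebraMap, map_zero]
    have := form_algebraMap (V := V) r
    erw [this]
    simp [oneFm]
  | add a b ha hb =>
    intro i v
    simp only [map_add, Pi.add_apply, AlternatingMap.add_apply, ha, hb]
  | ι_mul a ξ ha =>
    intro i v
    change form (cL x (ι k ξ * a)) i v = form (ι k ξ * a) (i + 1) (Matrix.vecCons x v)
    rw [cL_ι_mul, map_sub, map_smul, form_ι_mul_succ]
    rcases i with _ | i
    · simp only [Pi.sub_apply, Pi.smul_apply, form_ι_mul_zero, sub_zero, wedge_apply,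
        AlternatingMap.smul_apply, smul_eq_mul]
      simp only [Nat.reduceAdd, Finset.univ_unique, Finset.sum_singleton]
      simp only [Fin.default_eq_zero, Fin.val_zero, pow_zero, one_mul, Matrix.cons_val_zero]
      congr 2
    · rw [wedge_cons]
      have : form (cL x a) i = (form a (i + 1)).curryLeft x := by
        ext w; rw [ha]; rfl
      simp only [Pi.sub_apply, Pi.smul_apply, form_ι_mul_succ, AlternatingMap.sub_apply,
        AlternatingMap.smul_apply, smul_eq_mul, this]

lemma cL_mem_I {W : Submodule k (Dual k V)} {x : V} (hx : ∀ w ∈ W, w x = 0)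
    {a : ExteriorAlgebra k (Dual k V)} (ha : a ∈ I W) : cL x a ∈ I W := by
  refine I_induction (P := fun a => cL x a ∈ I W) (by simp) ?_ ?_ ha
  · intro b w hw
    obtain ⟨b', hb⟩ := exists_mul_ι w b
    rw [hb, cL_ι_mul, hx w hw, zero_smul, zero_sub]
    exact neg_mem (I_mul_right (ι_mem_I hw) _)
  · intro a b ha hb
    rw [map_add]
    exact add_mem ha hb

lemma exists_vec [FiniteDimensional k V] {W : Submodule k (Dual k V)} {u : Dual k V}
    (hu : u ∉ W) : ∃ x : V, u x = 1 ∧ ∀ w ∈ W, w x = 0 := by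
  obtain ⟨φ, h1, h2⟩ := exists_dual hu
  obtain ⟨x, rfl⟩ := (Module.bijective_dual_eval k V).2 φ
  exact ⟨x, h1, h2⟩

lemma form_eq_zero_of_mem_I {W : Submodule k (Dual k V)} {a : ExteriorAlgebra k (Dual k V)}
    (ha : a ∈ I W) (i : ℕ) (v : Fin i → V) (hv : ∀ j, ∀ w ∈ W, w (v j) = 0) :
    form a i v = 0 := by
  refine I_induction (P := fun a => form a i v = 0) (by simp) ?_ ?_ ha
  · intro b w hw
    obtain ⟨b', hb⟩ := exists_mul_ι w b
    rw [hb]
    rcases i with _ | i
    · rw [form_ι_mul_zero]; rfl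
    · rw [form_ι_mul_succ, wedge_apply]
      exact Finset.sum_eq_zero fun j _ => by rw [hv j w hw]; ring
  · intro a b ha hb
    simp only [map_add, Pi.add_apply, AlternatingMap.add_apply, ha, hb, add_zero]

lemma mem_I_of_form [FiniteDimensional k V] (W : Submodule k (Dual k V)) :
    ∀ a : ExteriorAlgebra k (Dual k V),
      (∀ (i : ℕ) (v : Fin i → V), (∀ j, ∀ w ∈ W, w (v j) = 0) → form a i v = 0) → a ∈ I W := by
  induction W using WellFoundedGT.induction with
  | ind W ih =>
    intro a ha
    by_cases hW : W = ⊤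
    · subst hW
      obtain ⟨r, hr⟩ := exists_sub_mem_I_top a
      have h1 := form_eq_zero_of_mem_I hr 0 (fun j => j.elim0) (fun j => j.elim0)
      have h2 := ha 0 (fun j => j.elim0) (fun j => j.elim0)
      rw [map_sub, form_algebraMap] at h1
      simp only [Pi.sub_apply, AlternatingMap.sub_apply, h2, Pi.smul_apply,
        AlternatingMap.smul_apply, oneFm, AlternatingMap.constOfIsEmpty_apply] at h1
      have : r = 0 := by simpa using h1
      simpa [this] using hr
    obtain ⟨u, hu⟩ : ∃ x, x ∉ W := by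
      by_contra h
      push Not at h
      exact hW (Submodule.eq_top_iff'.2 h)
    have hlt : W < W ⊔ k ∙ u := by
      refine lt_of_le_of_ne le_sup_left fun h => hu ?_
      rw [h]; exact Submodule.mem_sup_right (Submodule.mem_span_singleton_self u)
    obtain ⟨x, hx1, hx2⟩ := exists_vec hu
    have h1 := ih _ hlt a fun i v hv => ha i v fun j w hw => hv j w (Submodule.mem_sup_left hw)
    have h2 := ih _ hlt (cL x a) fun i v hv => by
      rw [form_cL]
      refine ha _ _ fun j w hw => ?_
      refine Fin.cases ?_ (fun j => ?_) j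
      · simpa using hx2 w hw
      · simpa using hv j w (Submodule.mem_sup_left hw)
    obtain ⟨b0, hb0⟩ := mem_I_sup h1
    obtain ⟨b, hb⟩ := exists_mul_ι u b0
    rw [hb] at hb0
    have h3 := cL_mem_I hx2 hb0
    rw [map_sub, cL_ι_mul, hx1, one_smul] at h3
    have huI : ι k u ∈ I (W ⊔ k ∙ u) :=
      ι_mem_I (Submodule.mem_sup_right (Submodule.mem_span_singleton_self u))
    have h4 : b ∈ I (W ⊔ k ∙ u) := by
      have : b = cL x a - (cL x a - (b - ι k u * cL x b)) + ι k u * cL x b := by abel
      rw [this]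
      exact add_mem (sub_mem h2 (I_mono le_sup_left h3)) (I_mul_right huI _)
    obtain ⟨c0, hc0⟩ := mem_I_sup h4
    obtain ⟨c, hc⟩ := exists_mul_ι u c0
    rw [hc] at hc0
    have h5 : ι k u * b ∈ I W := by
      have : ι k u * b = ι k u * (b - ι k u * c) := by
        rw [mul_sub, ← mul_assoc, ι_sq_zero, zero_mul, sub_zero]
      rw [this]; exact I_mul_left hc0 _
    simpa using add_mem hb0 h5

lemma form_homog {i : ℕ} {a : ExteriorAlgebra k (Dual k V)} (ha : a ∈ ⋀[k]^i (Dual k V)) :
    ∀ j, j ≠ i → form a j = 0 := by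
  induction i generalizing a with
  | zero =>
    have ha' : a ∈ (1 : Submodule k (ExteriorAlgebra k (Dual k V))) := by
      rw [← pow_zero (LinearMap.range (ι k : Dual k V →ₗ[k] _))]; exact ha
    obtain ⟨r, rfl⟩ := Submodule.mem_one.1 ha'
    intro j hj
    rw [form_algebraMap]
    rcases j with _ | j
    · exact absurd rfl hj
    · simp [oneFm]
  | succ i ih =>
    have ha' : a ∈ LinearMap.range (ι k : Dual k V →ₗ[k] _) *
        LinearMap.range (ι k : Dual k V →ₗ[k] _) ^ i := by
      rw [← pow_succ']; exact ha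
    intro j hj
    refine Submodule.mul_induction_on ha' (C := fun a => form a j = 0) ?_ ?_
    · rintro _ ⟨u, rfl⟩ b hb
      rcases j with _ | j
      · exact form_ι_mul_zero _ _
      · rw [form_ι_mul_succ, ih hb j (by omega)]
        ext v; simp [wedge_apply]
    · intro a b ha hb
      simp only [map_add, Pi.add_apply, ha, hb, add_zero]

lemma mem_I_of_form_homog [FiniteDimensional k V] {W : Submodule k (Dual k V)} {i : ℕ}
    {a : ExteriorAlgebra k (Dual k V)} (ha : a ∈ ⋀[k]^i (Dual k V))
    (h : ∀ v : Fin i → V, (∀ j, ∀ w ∈ W, w (v j) = 0) → form a i v = 0) : a ∈ I W := by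
  refine mem_I_of_form W a fun j v hv => ?_
  by_cases hj : j = i
  · subst hj; exact h v hv
  · rw [form_homog ha j hj]; rfl

lemma eq_zero_of_form [FiniteDimensional k V] {i : ℕ}
    {a : ExteriorAlgebra k (Dual k V)} (ha : a ∈ ⋀[k]^i (Dual k V))
    (h : ∀ v : Fin i → V, form a i v = 0) : a = 0 := by
  have := mem_I_of_form_homog (W := ⊥) ha fun v _ => h v
  rwa [I_bot, Submodule.mem_bot] at this

lemma form_surj [FiniteDimensional k V] {i : ℕ} (ω : V [⋀^Fin i]→ₗ[k] k) :
    ∃ a ∈ ⋀[k]^i (Dual k V), form a i = ω := by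
  let f : ⋀[k]^i (Dual k V) →ₗ[k] Dual k (⋀[k]^i V) :=
    (exteriorPower.alternatingMapLinearEquiv (R := k) (n := i) (M := V) (N := k)).toLinearMap ∘ₗ
      (LinearMap.proj i) ∘ₗ form ∘ₗ (⋀[k]^i (Dual k V)).subtype
  have hinj : Function.Injective f := by
    rw [← LinearMap.ker_eq_bot, LinearMap.ker_eq_bot']
    intro a ha
    have h1 : form (a : ExteriorAlgebra k (Dual k V)) i = 0 := by
      simpa [f] using ha
    exact Subtype.ext (eq_zero_of_form a.2 fun v => by rw [h1]; rfl)
  have hdim : finrank k (⋀[k]^i (Dual k V)) = finrank k (Dual k (⋀[k]^i V)) := by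
    rw [Subspace.dual_finrank_eq, exteriorPower.finrank_eq, exteriorPower.finrank_eq,
      Subspace.dual_finrank_eq]
  have hsurj := (LinearMap.injective_iff_surjective_of_finrank_eq_finrank hdim).1 hinj
  obtain ⟨a, ha⟩ := hsurj (exteriorPower.alternatingMapLinearEquiv ω)
  refine ⟨a, a.2, ?_⟩
  simpa [f] using ha

lemma form_ι_ι (ξ η : Dual k V) (x y : V) :
    form (ι k ξ * ι k η) 2 ![x, y] = ξ x * η y - ξ y * η x := by
  rw [← mul_one (ι k η), form_ι_mul_succ, form_ι_mul_succ, wedge_wedge_apply, form_one]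
  simp [oneFm]

lemma form_two_mul {q : ExteriorAlgebra k (Dual k V)} (hq : q ∈ ⋀[k]^2 (Dual k V))
    (a : ExteriorAlgebra k (Dual k V)) (i : ℕ) (v : Fin (i + 2) → V) :
    form (q * a) (i + 2) v = ∑ s : Fin (i + 1), ∑ t ∈ Finset.Ici s, (-1) ^ ((s : ℕ) + t) *
      (form q 2 ![v s.castSucc, v t.succ] *
        form a i (t.removeNth (s.castSucc.removeNth v))) := by
  refine mem_two hq (P := fun q => form (q * a) (i + 2) v =
    ∑ s : Fin (i + 1), ∑ t ∈ Finset.Ici s, (-1) ^ ((s : ℕ) + t) *
      (form q 2 ![v s.castSucc, v t.succ] *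
        form a i (t.removeNth (s.castSucc.removeNth v)))) ?_ ?_
  · intro ξ η
    rw [mul_assoc, form_ι_mul_succ, form_ι_mul_succ, wedge_wedge_apply]
    simp only [form_ι_ι]
  · intro b c hb hc
    simp only [add_mul, map_add, Pi.add_apply, AlternatingMap.add_apply, hb, hc, mul_add,
      Finset.sum_add_distrib]

lemma form_ι_mul_three (ξ : Dual k V) (q : ExteriorAlgebra k (Dual k V)) (a b c : V) :
    form (ι k ξ * q) 3 ![a, b, c] =
      ξ a * form q 2 ![b, c] - ξ b * form q 2 ![a, c] + ξ c * form q 2 ![a, b] := by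
  rw [form_ι_mul_succ, wedge_apply, Fin.sum_univ_three]
  have h0 : (0 : Fin 3).removeNth ![a, b, c] = ![b, c] := by
    funext t; fin_cases t <;> rfl
  have h1 : (1 : Fin 3).removeNth ![a, b, c] = ![a, c] := by
    funext t; fin_cases t <;> rfl
  have h2 : (2 : Fin 3).removeNth ![a, b, c] = ![a, b] := by
    funext t; fin_cases t <;> rfl
  rw [h0, h1, h2]
  simp
  ring

/-- An alternating bilinear form as an alternating map. -/
def altOfBilin (B : V →ₗ[k] V →ₗ[k] k) (hB : ∀ x, B x x = 0) : V [⋀^Fin 2]→ₗ[k] k where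
  toFun v := B (v 0) (v 1)
  map_update_add' v i x y := by fin_cases i <;> simp
  map_update_smul' v i r x := by fin_cases i <;> simp
  map_eq_zero_of_eq' v i j h hij := by
    fin_cases i <;> fin_cases j <;> simp_all

lemma altOfBilin_apply (B : V →ₗ[k] V →ₗ[k] k) (hB : ∀ x, B x x = 0) (v : Fin 2 → V) :
    altOfBilin B hB v = B (v 0) (v 1) := rfl

end Pool.Agent.H476Z.BK
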