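import Pool.Agent.H476Z.BK.Good

set_option autoImplicit false
set_option linter.unusedSectionVars false

namespace Pool.Agent.H476Z.BK

open ExteriorAlgebra Module

variable {k : Type*} [Field k] {U : Type*} [AddCommGroup U] [Module k U]
variable {σ : Type*} [Fintype σ] [DecidableEq σ] {q : σ → ExteriorAlgebra k U}

/-- The degree two part of `(q) + I W`. -/
noncomputable def NW (q : σ → ExteriorAlgebra k U) (W : Submodule k U) :
    Submodule k (ExteriorAlgebra k U) :=
  (Submodule.span k (Set.range q) ⊔ (I W).restrictScalars k) ⊓ ⋀[k]^2 U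

instance [FiniteDimensional k U] (W : Submodule k U) : FiniteDimensional k (NW q W) :=
  Submodule.finiteDimensional_of_le (S₂ := ⋀[k]^2 U) inf_le_right

lemma finrank_sup_range_le {V V' : Type*} [AddCommGroup V] [Module k V] [AddCommGroup V']
    [Module k V'] [FiniteDimensional k V] (N : Submodule k V') [FiniteDimensional k N]
    (f : V →ₗ[k] V') :
    finrank k ↥(N ⊔ LinearMap.range f) + finrank k (N.comap f) ≤ finrank k N + finrank k V := by
  obtain ⟨C, hC⟩ := (N.comap f).exists_isCompl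
  have h1 : N ⊔ LinearMap.range f = N ⊔ C.map f := by
    apply le_antisymm
    · refine sup_le le_sup_left ?_
      rintro _ ⟨v, rfl⟩
      have hv : v ∈ N.comap f ⊔ C := by rw [hC.sup_eq_top]; trivial
      obtain ⟨a, ha, b, hb, rfl⟩ := Submodule.mem_sup.1 hv
      rw [map_add]
      exact add_mem (Submodule.mem_sup_left ha) (Submodule.mem_sup_right ⟨b, hb, rfl⟩)
    · exact sup_le_sup_left (LinearMap.map_le_range) _
  have h2 := Submodule.finrank_add_eq_of_isCompl hC
  have h3 := Submodule.finrank_add_le_finrank_add_finrank N (C.map f)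
  have h4 := Submodule.finrank_map_le f C
  rw [h1]
  omega

/-- Multiplication by a linear form. -/
noncomputable def mulι (x : U) : U →ₗ[k] ExteriorAlgebra k U :=
  (LinearMap.mulRight k (ι k x)).comp (ι k)

lemma W2_eq (W : Submodule k U) (x : U) : W2 q W x = (NW q W).comap (mulι x) := by
  ext u
  simp only [W2, NW, mulι, Submodule.mem_comap, Submodule.mem_inf, LinearMap.comp_apply,
    LinearMap.mulRight_apply]
  exact ⟨fun h => ⟨h, ι_mul_ι_mem_two _ _⟩, fun h => h.1⟩

lemma NW_mono {W W' : Submodule k U} (h : W ≤ W') : NW q W ≤ NW q W' :=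
  inf_le_inf_right _ (sup_le_sup_left (fun _ ha => I_mono h ha) _)

lemma span_le_two (hq : ∀ α, q α ∈ ⋀[k]^2 U) : Submodule.span k (Set.range q) ≤ ⋀[k]^2 U :=
  Submodule.span_le.2 (by rintro _ ⟨α, rfl⟩; exact hq α)

lemma NW_sup (hq : ∀ α, q α ∈ ⋀[k]^2 U) (W : Submodule k U) (y : U) :
    NW q (W ⊔ k ∙ y) ≤ NW q W ⊔ LinearMap.range (mulι (k := k) y) := by
  rintro a ⟨ha, ha2⟩
  obtain ⟨s, hs, i, hi, rfl⟩ := Submodule.mem_sup.1 ha
  have hi2 : i ∈ ⋀[k]^2 U := by simpa using sub_mem ha2 (span_le_two hq hs)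
  obtain ⟨u, hu⟩ := two_mem_I_sup hi2 hi
  have : s + i = (s + (i - ι k u * ι k y)) + ι k u * ι k y := by abel
  rw [this]
  refine add_mem (Submodule.mem_sup_left ⟨?_, ?_⟩) (Submodule.mem_sup_right ⟨u, rfl⟩)
  · exact add_mem (Submodule.mem_sup_left hs) (Submodule.mem_sup_right hu)
  · exact add_mem (span_le_two hq hs) (sub_mem hi2 (ι_mul_ι_mem_two _ _))

lemma NW_top : NW q ⊤ = ⋀[k]^2 U := by
  apply le_antisymm inf_le_right
  intro a ha
  exact ⟨Submodule.mem_sup_right (succ_mem_I_top (n := 1) ha), ha⟩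

lemma chain (hq : ∀ α, q α ∈ ⋀[k]^2 U) [FiniteDimensional k U] {W Y : Submodule k U} {r : ℕ}
    (hr : ∀ y, finrank k U ≤ finrank k (W2 q W y) + r) (d : ℕ) :
    ∀ W' : Submodule k U, W ≤ W' → W' ≤ Y → finrank k Y = finrank k W' + d →
      finrank k (NW q Y) ≤ finrank k (NW q W') + d * r := by
  induction d with
  | zero =>
    intro W' _ h2 h3
    rw [Submodule.eq_of_le_of_finrank_eq h2 (by omega)]
    simp
  | succ d ih =>
    intro W' h1 h2 h3
    obtain ⟨y, hy, hy'⟩ : ∃ y ∈ Y, y ∉ W' := by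
      by_contra h
      push Not at h
      have := Submodule.finrank_mono (show Y ≤ W' from h)
      omega
    have h4 : finrank k ↥(W' ⊔ k ∙ y) = finrank k W' + 1 :=
      Submodule.finrank_sup_span_singleton hy'
    have h5 := ih (W' ⊔ k ∙ y) (h1.trans le_sup_left)
      (sup_le h2 ((Submodule.span_singleton_le_iff_mem _ _).2 hy)) (by omega)
    have h6 := finrank_sup_range_le (NW q W') (mulι (k := k) y)
    have h7 := Submodule.finrank_mono (NW_sup hq W' y)
    have h8 : finrank k (W2 q W y) ≤ finrank k ((NW q W').comap (mulι y)) := by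
      rw [W2_eq]
      exact Submodule.finrank_mono (Submodule.comap_mono (NW_mono h1))
    have h9 := hr y
    rw [add_mul]
    omega

lemma eq_top_of_one_le (hq : ∀ α, q α ∈ ⋀[k]^2 U) {W : Submodule k U}
    (h : ∀ a ∈ ⋀[k]^1 U, a ∈ JW q W) : W = ⊤ := by
  by_contra hW
  obtain ⟨x, hx⟩ : ∃ x, x ∉ W := by
    by_contra h
    push Not at h
    exact hW (Submodule.eq_top_iff'.2 h)
  obtain ⟨φ, h1, h2⟩ := exists_dual hx
  have hx1 : ι k x ∈ ⋀[k]^1 U := by
    change ι k x ∈ LinearMap.range (ι k : U →ₗ[k] _) ^ 1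
    rw [pow_one]; exact ⟨x, rfl⟩
  obtain ⟨e, he⟩ := mem_JW.1 (h _ hx1)
  have h0 : ∀ (b : ExteriorAlgebra k U) (u : U), algebraMapInv (b * ι k u) = (0 : k) := by
    intro b u
    rw [map_mul]
    simp [algebraMapInv]
  have h3 : ∀ a ∈ I W, algebraMapInv (cR φ a) = (0 : k) := by
    intro a ha
    refine I_induction (P := fun a => algebraMapInv (cR φ a) = (0 : k)) (by simp) ?_ ?_ ha
    · intro b w hw
      rw [cR_mul_ι, h2 w hw, zero_smul, zero_sub, map_neg, h0, neg_zero]
    · intro a b ha hb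
      rw [map_add, map_add, ha, hb, add_zero]
  have h4 : algebraMapInv (cR φ (mu q e)) = (0 : k) := by
    rw [mu_apply, map_sum, map_sum]
    refine Finset.sum_eq_zero fun α _ => ?_
    refine mem_two (hq α) (P := fun a => algebraMapInv (cR φ (e α * a)) = (0 : k)) ?_ ?_
    · intro u v
      rw [← mul_assoc, cR_mul_ι, map_sub, map_smul, h0, h0, smul_zero, sub_zero]
    · intro a b ha hb
      rw [mul_add, map_add, map_add, ha, hb, add_zero]
  have h5 := h3 _ he
  rw [map_sub, map_sub, h4, cR_ι, h1, map_one, map_one] at h5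
  simp at h5

/-- The Turán type inequality. -/
theorem turan (hq : ∀ α, q α ∈ ⋀[k]^2 U) [FiniteDimensional k U] (hL : Lifts q) (n : ℕ) :
    ∀ W : Submodule k U, (∀ a ∈ ⋀[k]^(n + 1) U, a ∈ JW q W) →
      2 * (n : ℤ) * ((finrank k (⋀[k]^2 U) : ℤ) - finrank k (NW q W)) ≤
        ((n : ℤ) - 1) * ((finrank k U : ℤ) - finrank k W) ^ 2 := by
  induction n with
  | zero =>
    intro W h
    rw [eq_top_of_one_le hq h]
    simp
  | succ n ih =>
    intro W h
    obtain ⟨x, hx⟩ : ∃ x : U, ∀ y, finrank k (W2 q W x) ≤ finrank k (W2 q W y) :=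
      exists_minimalFor_of_wellFoundedLT (fun _ : U => True) (fun x => finrank k (W2 q W x))
        ⟨0, trivial⟩ |>.imp fun x hx y => not_lt.1 fun hlt => hlt.not_ge (hx.2 trivial hlt.le)
    have hle : W ≤ W2 q W x := le_sup_left.trans (le_W2 q W x)
    have h1 : ∀ a ∈ ⋀[k]^(n + 1) U, a ∈ JW q (W2 q W x) := by
      intro a ha
      by_cases hxW : x ∈ W
      · have : W2 q W x = ⊤ := by
          refine Submodule.eq_top_iff'.2 fun u => mem_W2.2 ⟨0, ?_⟩
          rw [cst_zero, map_zero, sub_zero]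
          exact mul_ι_mem_I hxW _
        rw [this]
        exact Submodule.mem_sup_left (succ_mem_I_top ha)
      · refine colon hq hL hxW (h _ ?_)
        change _ ∈ LinearMap.range (ι k : U →ₗ[k] _) ^ (n + 1 + 1)
        rw [pow_succ]
        exact Submodule.mul_mem_mul ha ⟨x, rfl⟩
    have h2 := ih _ h1
    obtain ⟨r, hr⟩ := Nat.exists_eq_add_of_le (Submodule.finrank_le (W2 q W x))
    obtain ⟨d, hd⟩ := Nat.exists_eq_add_of_le (Submodule.finrank_mono hle)
    have h3 := chain hq (W := W) (Y := W2 q W x) (r := r)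
      (fun y => by have := hx y; omega) d W le_rfl hle hd
    have h3' : (finrank k (NW q (W2 q W x)) : ℤ) ≤ finrank k (NW q W) + d * r := by
      exact_mod_cast h3
    have e1 : (finrank k U : ℤ) - finrank k (W2 q W x) = r := by rw [hr]; push_cast; ring
    have e2 : (finrank k U : ℤ) - finrank k W = d + r := by rw [hr, hd]; push_cast; ring
    rw [e1] at h2
    rw [e2]
    push_cast
    rcases Nat.eq_zero_or_pos n with rfl | hn
    · have h4 := eq_top_of_one_le hq h1
      have hr0 : r = 0 := by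
        rw [h4, finrank_top] at hr; omega
      rw [h4, NW_top, hr0] at h3'
      simp only [Nat.cast_zero, mul_zero, add_zero] at h3'
      simp only [Nat.cast_zero]
      linarith
    · have hn' : (0 : ℤ) < n := by exact_mod_cast hn
      set B : ℤ := (finrank k (⋀[k]^2 U) : ℤ) - finrank k (NW q W) with hB
      set B2 : ℤ := (finrank k (⋀[k]^2 U) : ℤ) - finrank k (NW q (W2 q W x)) with hB2
      have h5 : B ≤ B2 + d * r := by rw [hB, hB2]; linarith
      refine le_of_mul_le_mul_left ?_ hn'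
      have h6 : (n : ℤ) * (2 * (n + 1) * B) ≤ (n + 1) * (2 * n * B2) + 2 * n * (n + 1) * (d * r) := by
        have : (0 : ℤ) ≤ 2 * n * (n + 1) := by positivity
        nlinarith [mul_le_mul_of_nonneg_left h5 this]
      have h7 : ((n : ℤ) + 1) * (2 * n * B2) ≤ (n + 1) * ((n - 1) * r ^ 2) :=
        mul_le_mul_of_nonneg_left h2 (by positivity)
      nlinarith [sq_nonneg ((n : ℤ) * (d + r) - (n + 1) * r)]

end Pool.Agent.H476Z.BK
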