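import Pool.Agent.H476Z.BK.Defs
import Pool.Agent.H476Z.BK.Form
import Pool.Agent.H476Z.BK.Turan

set_option autoImplicit false
set_option linter.unusedSectionVars false

namespace Pool.Agent.H476Z.BK

open ExteriorAlgebra Module
open scoped DirectSum

section SubQuot

variable {k : Type*} [Field k] {M : Type*} [AddCommGroup M] [Module k M] {Z B : Submodule k M}
variable {X : Type*} [AddCommGroup X] [Module k X]

/-- A linear map into a subquotient. -/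
def SubQuot.lift (B : Submodule k M) (f : X →ₗ[k] M) (hf : ∀ x, f x ∈ Z) :
    X →ₗ[k] SubQuot Z B :=
  (B.comap Z.subtype).mkQ ∘ₗ f.codRestrict Z hf

lemma SubQuot.lift_eq_zero (f : X →ₗ[k] M) (hf : ∀ x, f x ∈ Z) (x : X) :
    SubQuot.lift B f hf x = 0 ↔ f x ∈ B :=
  Submodule.Quotient.mk_eq_zero (B.comap Z.subtype)

lemma SubQuot.lift_surj (f : X →ₗ[k] M) (hf : ∀ x, f x ∈ Z) (h : ∀ z ∈ Z, ∃ x, f x = z) :
    Function.Surjective (SubQuot.lift B f hf) := by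
  intro y
  obtain ⟨z, rfl⟩ := (B.comap Z.subtype).mkQ_surjective y
  obtain ⟨x, hx⟩ := h z z.2
  exact ⟨x, congrArg (B.comap Z.subtype).mkQ (Subtype.ext hx)⟩

lemma SubQuot.le_of_subsingleton (h : Subsingleton (SubQuot Z B)) : Z ≤ B := by
  intro z hz
  exact (SubQuot.lift_eq_zero (B := B) Z.subtype (fun x => x.2) ⟨z, hz⟩).1 (Subsingleton.elim _ _)

end SubQuot

variable {k : Type*} [Field k] {L : Type*} [LieRing L] [LieAlgebra k L]

lemma alt_sum_apply {V : Type*} [AddCommGroup V] [Module k V] {i : ℕ} {τ : Type*} (s : Finset τ)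
    (f : τ → V [⋀^Fin i]→ₗ[k] k) (v : Fin i → V) : (∑ t ∈ s, f t) v = ∑ t ∈ s, f t v := by
  classical
  induction s using Finset.induction_on with
  | empty => simp
  | insert a s ha ih => rw [Finset.sum_insert ha, Finset.sum_insert ha, AlternatingMap.add_apply, ih]

lemma ceDiff_succ (i : ℕ) (η : L [⋀^Fin (i + 1)]→ₗ[k] k) (x : Fin (i + 2) → L) :
    ceDiff (i + 1) η x = ∑ s : Fin (i + 1), ∑ t ∈ Finset.Ici s,
      (-1) ^ ((s : ℕ) + ((t : ℕ) + 1)) *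
        η (Fin.cons ⁅x s.castSucc, x t.succ⁆ (t.removeNth (s.castSucc.removeNth x))) := rfl

lemma ceDiff_one (η : L [⋀^Fin 1]→ₗ[k] k) (x : Fin 2 → L) :
    ceDiff 1 η x = -η ![⁅x 0, x 1⁆] := by
  have h : ceDiff 1 η x = ∑ s : Fin 1, ∑ t ∈ Finset.Ici s,
      (-1) ^ ((s : ℕ) + ((t : ℕ) + 1)) *
        η (Fin.cons ⁅x s.castSucc, x t.succ⁆ (t.removeNth (s.castSucc.removeNth x))) := rfl
  have h0 : Finset.Ici (0 : Fin 1) = {0} := by decide
  rw [h, Fin.sum_univ_one, h0, Finset.sum_singleton]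
  simp only [Fin.val_zero, zero_add, pow_one, neg_mul, one_mul, neg_inj]
  congr 1
  funext t
  fin_cases t
  rfl

lemma ceDiff_two (η : L [⋀^Fin 2]→ₗ[k] k) (x : Fin 3 → L) :
    ceDiff 2 η x = -η ![⁅x 0, x 1⁆, x 2] + η ![⁅x 0, x 2⁆, x 1] - η ![⁅x 1, x 2⁆, x 0] := by
  have h : ceDiff 2 η x = ∑ s : Fin 2, ∑ t ∈ Finset.Ici s,
      (-1) ^ ((s : ℕ) + ((t : ℕ) + 1)) *
        η (Fin.cons ⁅x s.castSucc, x t.succ⁆ (t.removeNth (s.castSucc.removeNth x))) := rfl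
  have h0 : Finset.Ici (0 : Fin 2) = {0, 1} := by decide
  have h1 : Finset.Ici (1 : Fin 2) = {1} := by decide
  rw [h, Fin.sum_univ_two, h0, h1, Finset.sum_pair (by decide), Finset.sum_singleton]
  have e1 : (Fin.cons ⁅x (Fin.castSucc 0), x (Fin.succ 0)⁆
      ((0 : Fin 2).removeNth ((Fin.castSucc (0 : Fin 2)).removeNth x)) : Fin 2 → L) =
      ![⁅x 0, x 1⁆, x 2] := by
    funext t; fin_cases t <;> rfl
  have e2 : (Fin.cons ⁅x (Fin.castSucc 0), x (Fin.succ 1)⁆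
      ((1 : Fin 2).removeNth ((Fin.castSucc (0 : Fin 2)).removeNth x)) : Fin 2 → L) =
      ![⁅x 0, x 2⁆, x 1] := by
    funext t; fin_cases t <;> rfl
  have e3 : (Fin.cons ⁅x (Fin.castSucc 1), x (Fin.succ 1)⁆
      ((1 : Fin 2).removeNth ((Fin.castSucc (1 : Fin 2)).removeNth x)) : Fin 2 → L) =
      ![⁅x 1, x 2⁆, x 0] := by
    funext t; fin_cases t <;> rfl
  rw [e1, e2, e3]
  simp
  ring

variable (ℒ : ℕ → Submodule k L) [GradedLieAlgebra ℒ]

/-- The projection to a homogeneous component. -/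
noncomputable def pr (i : ℕ) : L →ₗ[k] ℒ i :=
  DirectSum.component k ℕ (fun i => ℒ i) i ∘ₗ (DirectSum.decomposeLinearEquiv ℒ).toLinearMap

variable {ℒ}

lemma pr_same {i : ℕ} {x : L} (hx : x ∈ ℒ i) : (pr ℒ i x : L) = x :=
  DirectSum.decompose_of_mem_same ℒ hx

lemma pr_coe {i : ℕ} (x : ℒ i) : pr ℒ i x = x := Subtype.ext (pr_same x.2)

lemma pr_ne {i j : ℕ} {x : L} (hx : x ∈ ℒ j) (h : j ≠ i) : pr ℒ i x = 0 :=
  Subtype.ext (DirectSum.decompose_of_mem_ne ℒ hx h)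

lemma bilin_ext {N : Type*} [AddCommGroup N] [Module k N] {f g : L →ₗ[k] L →ₗ[k] N}
    (h : ∀ a b : ℕ, ∀ x ∈ ℒ a, ∀ y ∈ ℒ b, f x y = g x y) (x y : L) : f x y = g x y := by
  induction x using DirectSum.Decomposition.inductionOn ℒ with
  | zero => simp
  | add x x' hx hx' => simp [hx, hx']
  | homogeneous x =>
    induction y using DirectSum.Decomposition.inductionOn ℒ with
    | zero => simp
    | add y y' hy hy' => simp [hy, hy']
    | homogeneous y => exact h _ _ _ x.2 _ y.2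

lemma lie_mem {a b : ℕ} {x y : L} (hx : x ∈ ℒ a) (hy : y ∈ ℒ b) : ⁅x, y⁆ ∈ ℒ (a + b) :=
  SetLike.GradedBracket.bracket_mem hx hy

/-- The bracket as a bilinear map. -/
noncomputable def brk (k : Type*) [Field k] (L : Type*) [LieRing L] [LieAlgebra k L] :
    L →ₗ[k] L →ₗ[k] L :=
  LinearMap.mk₂ k (fun x y => ⁅x, y⁆) add_lie smul_lie lie_add lie_smul

lemma brk_apply (x y : L) : brk k L x y = ⁅x, y⁆ := rfl

lemma pr_one_lie (h0 : ℒ 0 = ⊥) (x y : L) : pr ℒ 1 ⁅x, y⁆ = 0 := by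
  refine bilin_ext (ℒ := ℒ) (f := (brk k L).compr₂ (pr ℒ 1)) (g := 0) ?_ x y
  intro a b x hx y hy
  simp only [LinearMap.compr₂_apply, brk_apply, LinearMap.zero_apply]
  rcases a with _ | a
  · rw [h0, Submodule.mem_bot] at hx; simp [hx]
  rcases b with _ | b
  · rw [h0, Submodule.mem_bot] at hy; simp [hy]
  exact pr_ne (lie_mem hx hy) (by omega)

lemma pr_two_lie (h0 : ℒ 0 = ⊥) (x y : L) :
    pr ℒ 2 ⁅x, y⁆ = pr ℒ 2 ⁅(pr ℒ 1 x : L), (pr ℒ 1 y : L)⁆ := by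
  refine bilin_ext (ℒ := ℒ) (f := (brk k L).compr₂ (pr ℒ 2))
    (g := ((brk k L).compr₂ (pr ℒ 2)).compl₁₂ ((ℒ 1).subtype ∘ₗ pr ℒ 1)
      ((ℒ 1).subtype ∘ₗ pr ℒ 1)) ?_ x y
  intro a b x hx y hy
  simp only [LinearMap.compr₂_apply, brk_apply, LinearMap.compl₁₂_apply, LinearMap.comp_apply,
    Submodule.subtype_apply]
  rcases a with _ | a
  · rw [h0, Submodule.mem_bot] at hx; simp [hx]
  rcases b with _ | b
  · rw [h0, Submodule.mem_bot] at hy; simp [hy]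
  by_cases ha : a = 0
  · by_cases hb : b = 0
    · subst ha hb
      rw [pr_same hx, pr_same hy]
    · rw [pr_ne (lie_mem hx hy) (by omega), pr_ne hy (by omega)]; simp
  · rw [pr_ne (lie_mem hx hy) (by omega), pr_ne hx (by omega)]; simp

variable (ℒ) in
/-- The degree two bracket. -/
noncomputable def br2 : ℒ 1 →ₗ[k] ℒ 1 →ₗ[k] ℒ 2 :=
  ((brk k L).compr₂ (pr ℒ 2)).compl₁₂ (ℒ 1).subtype (ℒ 1).subtype

lemma br2_apply (v w : ℒ 1) : br2 ℒ v w = pr ℒ 2 ⁅(v : L), (w : L)⁆ := rfl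

lemma br2_coe (v w : ℒ 1) : (br2 ℒ v w : L) = ⁅(v : L), (w : L)⁆ :=
  pr_same (lie_mem v.2 w.2)

variable [FiniteDimensional k (ℒ 1)] [FiniteDimensional k (ℒ 2)]

variable (ℒ) in
/-- A basis of the degree two part. -/
noncomputable def lb : Basis (Fin (finrank k (ℒ 2))) k (ℒ 2) := Module.finBasis k (ℒ 2)

lemma exists_q (α : Fin (finrank k (ℒ 2))) : ∃ a ∈ ⋀[k]^2 (Dual k (ℒ 1)),
    ∀ v w, form a 2 ![v, w] = (lb ℒ).coord α (br2 ℒ v w) := by
  obtain ⟨a, ha, h⟩ := form_surj (altOfBilin ((br2 ℒ).compr₂ ((lb ℒ).coord α))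
    (fun x => by simp [br2_apply]))
  exact ⟨a, ha, fun v w => by rw [h]; rfl⟩

variable (ℒ) in
/-- The quadratic relations of the cohomology ring. -/
noncomputable def qq (α : Fin (finrank k (ℒ 2))) : ExteriorAlgebra k (Dual k (ℒ 1)) :=
  (exists_q α).choose

lemma qq_mem (α : Fin (finrank k (ℒ 2))) : qq ℒ α ∈ ⋀[k]^2 (Dual k (ℒ 1)) :=
  (exists_q α).choose_spec.1

lemma form_qq (α : Fin (finrank k (ℒ 2))) (v w : ℒ 1) :
    form (qq ℒ α) 2 ![v, w] = (lb ℒ).coord α (br2 ℒ v w) :=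
  (exists_q α).choose_spec.2 v w

/-- The bilinear form given by a vector of linear forms. -/
noncomputable def beta (l : Fin (finrank k (ℒ 2)) → Dual k (ℒ 1)) : ℒ 1 →ₗ[k] ℒ 2 →ₗ[k] k :=
  ∑ α, (l α).smulRight ((lb ℒ).coord α)

lemma beta_apply (l : Fin (finrank k (ℒ 2)) → Dual k (ℒ 1)) (v : ℒ 1) (m : ℒ 2) :
    beta l v m = ∑ α, l α v * (lb ℒ).coord α m := by
  simp [beta, LinearMap.sum_apply]

lemma form_mu_lin (l : Fin (finrank k (ℒ 2)) → Dual k (ℒ 1)) (a b c : ℒ 1) :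
    form (mu (qq ℒ) (lin k l)) 3 ![a, b, c] =
      beta l a (br2 ℒ b c) - beta l b (br2 ℒ a c) + beta l c (br2 ℒ a b) := by
  rw [mu_apply, map_sum, Finset.sum_apply]
  simp only [beta_apply, ← Finset.sum_sub_distrib, ← Finset.sum_add_distrib]
  rw [alt_sum_apply]
  refine Finset.sum_congr rfl fun α _ => ?_
  simp only [lin, form_ι_mul_three, form_qq]

lemma mu_lin_mem (l : Fin (finrank k (ℒ 2)) → Dual k (ℒ 1)) :
    mu (qq ℒ) (lin k l) ∈ ⋀[k]^3 (Dual k (ℒ 1)) := by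
  rw [mu_apply]
  refine Submodule.sum_mem _ fun α _ => ?_
  change _ ∈ LinearMap.range (ι k : Dual k (ℒ 1) →ₗ[k] _) ^ (2 + 1)
  rw [pow_succ']
  exact Submodule.mul_mem_mul ⟨l α, rfl⟩ (qq_mem α)

lemma form_mu_cst (c : Fin (finrank k (ℒ 2)) → k) (v w : ℒ 1) :
    form (mu (qq ℒ) (cst (Dual k (ℒ 1)) c)) 2 ![v, w] =
      ∑ α, c α * (lb ℒ).coord α (br2 ℒ v w) := by
  rw [mu_cst, map_sum, Finset.sum_apply, alt_sum_apply]
  refine Finset.sum_congr rfl fun α _ => ?_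
  rw [map_smul, Pi.smul_apply, AlternatingMap.smul_apply, form_qq, smul_eq_mul]

end Pool.Agent.H476Z.BK
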