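import Mathlib

set_option autoImplicit false

/-!
Bigraded cohomology `H^{i,j}(L)` of a graded Lie algebra with trivial coefficients, computed by the
Chevalley-Eilenberg complex, and Bloch-Kato Lie algebras.
-/

namespace Pool.Agent.H476Z.BK

open scoped DirectSum

variable {k : Type*} [Field k] {L : Type*} [LieRing L] [LieAlgebra k L]

/-- The `i`-cochains of internal degree `j`: alternating `i`-linear forms on `L` which vanish on
`ℒ (d 1) × ⋯ × ℒ (d i)` unless `d 1 + ⋯ + d i = j`. -/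
def cochains (ℒ : ℕ → Submodule k L) (i j : ℕ) : Submodule k (L [⋀^Fin i]→ₗ[k] k) where
  carrier := {ω | ∀ (d : Fin i → ℕ) (x : Fin i → L), (∀ a, x a ∈ ℒ (d a)) → ∑ a, d a ≠ j → ω x = 0}
  zero_mem' := fun _ _ _ _ => rfl
  add_mem' := fun {ω η} hω hη d x hx hd => by
    rw [AlternatingMap.add_apply, hω d x hx hd, hη d x hx hd, add_zero]
  smul_mem' := fun r ω hω d x hx hd => by
    rw [AlternatingMap.smul_apply, hω d x hx hd, smul_zero]

/-- The Chevalley-Eilenberg coboundary of an alternating form, evaluated at a tuple: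
`dη (x_0, …, x_i) = ∑_{a < b} (-1) ^ (a + b) η ([x_a, x_b], x_0, …, x_i)` with `x_a` and `x_b`
omitted at the end. The pairs `a < b` are written as `a = s`, `b = t + 1` with `s ≤ t`. -/
def ceDiff : (i : ℕ) → (L [⋀^Fin i]→ₗ[k] k) → (Fin (i + 1) → L) → k
  | 0, _, _ => 0
  | i + 1, η, x => ∑ s : Fin (i + 1), ∑ t ∈ Finset.Ici s, (-1) ^ ((s : ℕ) + ((t : ℕ) + 1)) *
      η (Fin.cons ⁅x s.castSucc, x t.succ⁆ (t.removeNth (s.castSucc.removeNth x)))

theorem ceDiff_add (i : ℕ) (η θ : L [⋀^Fin i]→ₗ[k] k) (x : Fin (i + 1) → L) :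
    ceDiff i (η + θ) x = ceDiff i η x + ceDiff i θ x := by
  cases i <;> simp [ceDiff, mul_add, Finset.sum_add_distrib]

theorem ceDiff_smul (i : ℕ) (r : k) (η : L [⋀^Fin i]→ₗ[k] k) (x : Fin (i + 1) → L) :
    ceDiff i (r • η) x = r * ceDiff i η x := by
  cases i <;> simp [ceDiff, Finset.mul_sum, mul_left_comm]

theorem ceDiff_zero (i : ℕ) (x : Fin (i + 1) → L) :
    ceDiff i (0 : L [⋀^Fin i]→ₗ[k] k) x = 0 := by
  cases i <;> simp [ceDiff]

/-- The `i`-cocycles of internal degree `j`. -/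
def cocycles (ℒ : ℕ → Submodule k L) (i j : ℕ) : Submodule k (L [⋀^Fin i]→ₗ[k] k) where
  carrier := {ω | ω ∈ cochains ℒ i j ∧ ∀ x, ceDiff i ω x = 0}
  zero_mem' := ⟨zero_mem _, ceDiff_zero i⟩
  add_mem' := fun {ω η} hω hη => ⟨add_mem hω.1 hη.1, fun x => by
    rw [ceDiff_add, hω.2, hη.2, add_zero]⟩
  smul_mem' := fun r ω hω => ⟨Submodule.smul_mem _ _ hω.1, fun x => by
    rw [ceDiff_smul, hω.2, mul_zero]⟩

/-- The `i`-coboundaries of internal degree `j`. -/
def coboundaries (ℒ : ℕ → Submodule k L) : (i j : ℕ) → Submodule k (L [⋀^Fin i]→ₗ[k] k)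
  | 0, _ => ⊥
  | i + 1, j =>
    { carrier := {ω | ∃ η ∈ cochains ℒ i j, ∀ x, ω x = ceDiff i η x}
      zero_mem' := ⟨0, zero_mem _, fun x => (ceDiff_zero i x).symm⟩
      add_mem' := fun {_ _} ⟨η, hη, h⟩ ⟨θ, hθ, h'⟩ => ⟨η + θ, add_mem hη hθ, fun x => by
        rw [AlternatingMap.add_apply, h, h', ceDiff_add]⟩
      smul_mem' := fun r _ ⟨η, hη, h⟩ => ⟨r • η, Submodule.smul_mem _ _ hη, fun x => by
        rw [AlternatingMap.smul_apply, h, ceDiff_smul, smul_eq_mul]⟩ }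

/-- The subquotient `Z / (B ∩ Z)` of a vector space. -/
def SubQuot {M : Type*} [AddCommGroup M] [Module k M] (Z B : Submodule k M) :=
  Z ⧸ B.comap Z.subtype

instance {M : Type*} [AddCommGroup M] [Module k M] (Z B : Submodule k M) :
    AddCommGroup (SubQuot Z B) := inferInstanceAs (AddCommGroup (Z ⧸ B.comap Z.subtype))

instance {M : Type*} [AddCommGroup M] [Module k M] (Z B : Submodule k M) :
    Module k (SubQuot Z B) := inferInstanceAs (Module k (Z ⧸ B.comap Z.subtype))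

/-- The cohomology group `H^{i,j}`: cocycles modulo coboundaries. -/
abbrev Hij (ℒ : ℕ → Submodule k L) (i j : ℕ) := SubQuot (cocycles ℒ i j) (coboundaries ℒ i j)

/-- The cohomology group `H^i = ⨁_j H^{i,j}`. -/
abbrev Hi (ℒ : ℕ → Submodule k L) (i : ℕ) := ⨁ j : ℕ, Hij ℒ i j

/-- The Betti number `b_i = dim H^i`. -/
noncomputable def betti (ℒ : ℕ → Submodule k L) (i : ℕ) : ℕ := Module.finrank k (Hi ℒ i)

/-- The cohomological dimension `sup {m | H^m ≠ 0}` is finite and equal to `n`. -/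
def HasCD (ℒ : ℕ → Submodule k L) (n : ℕ) : Prop :=
  Nontrivial (Hi ℒ n) ∧ ∀ m, n < m → Subsingleton (Hi ℒ m)

/-- `H^1` is finite dimensional and `H^{1,j} = 0` for `j ≠ 1`. -/
def IsStandard (ℒ : ℕ → Submodule k L) : Prop :=
  Module.Finite k (Hi ℒ 1) ∧ ∀ j, j ≠ 1 → Subsingleton (Hij ℒ 1 j)

/-- Standard, and `H^{2,j} = 0` for `j ≠ 2`. -/
def IsQuadratic (ℒ : ℕ → Submodule k L) : Prop :=
  IsStandard ℒ ∧ ∀ j, j ≠ 2 → Subsingleton (Hij ℒ 2 j)

/-- The grading `M ∩ ℒ i` of a subalgebra `M`. -/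
def inducedGrading (ℒ : ℕ → Submodule k L) (M : LieSubalgebra k L) : ℕ → Submodule k M :=
  fun i => (ℒ i).comap M.toSubmodule.subtype

/-- Bloch-Kato: quadratic, and every subalgebra generated by elements of degree one is
quadratic. -/
def IsBlochKato (ℒ : ℕ → Submodule k L) : Prop :=
  IsQuadratic ℒ ∧ ∀ S : Set L, S ⊆ ℒ 1 →
    IsQuadratic (inducedGrading ℒ (LieSubalgebra.lieSpan k L S))

end Pool.Agent.H476Z.BK
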