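import Pool.Agent.H476Z.BK.Syz

set_option autoImplicit false
set_option linter.unusedSectionVars false

namespace Pool.Agent.H476Z.BK

open ExteriorAlgebra

variable {k : Type*} [Field k] {U : Type*} [AddCommGroup U] [Module k U]
variable {σ : Type*} [Fintype σ] [DecidableEq σ] {q : σ → ExteriorAlgebra k U}

/-- The linear forms attached to a space of constant vectors. -/
def YC (q : σ → ExteriorAlgebra k U) (W : Submodule k U) (x : U) (C : Submodule k (σ → k)) :
    Submodule k U where
  carrier := {y | ∃ c ∈ C, ι k y * ι k x - mu q (cst U c) ∈ I W}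
  zero_mem' := ⟨0, zero_mem _, by simp [cst_zero]⟩
  add_mem' := by
    rintro a b ⟨c, hc, ha⟩ ⟨d, hd, hb⟩
    refine ⟨c + d, add_mem hc hd, ?_⟩
    have : ι k (a + b) * ι k x - mu q (cst U (c + d)) =
        (ι k a * ι k x - mu q (cst U c)) + (ι k b * ι k x - mu q (cst U d)) := by
      rw [map_add, cst_add, map_add, add_mul]; abel
    rw [this]; exact add_mem ha hb
  smul_mem' := by
    rintro r a ⟨c, hc, ha⟩
    refine ⟨r • c, C.smul_mem _ hc, ?_⟩
    have : ι k (r • a) * ι k x - mu q (cst U (r • c)) =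
        algebraMap k (ExteriorAlgebra k U) r * (ι k a * ι k x - mu q (cst U c)) := by
      rw [map_smul, cst_smul, map_smul, smul_eq_mul, mul_sub, Algebra.smul_def, mul_assoc]
    rw [this]; exact I_mul_left ha _

lemma le_YC (W : Submodule k U) (x : U) (C : Submodule k (σ → k)) :
    W ⊔ k ∙ x ≤ YC q W x C := by
  intro u hu
  refine ⟨0, zero_mem _, ?_⟩
  rw [cst_zero, map_zero, sub_zero]
  exact mul_ι_mem_of_mem_sup (ι_mem_I hu)

/-- The submodule generated by a space of constant vectors. -/
def SC (U : Type*) [AddCommGroup U] [Module k U] (C : Submodule k (σ → k)) :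
    Submodule (ExteriorAlgebra k U) (σ → ExteriorAlgebra k U) :=
  Submodule.span _ (cst U '' (C : Set (σ → k)))

lemma cst_mem_SC {C : Submodule k (σ → k)} {c : σ → k} (hc : c ∈ C) : cst U c ∈ SC U C :=
  Submodule.subset_span ⟨c, hc, rfl⟩

lemma SC_sup {C : Submodule k (σ → k)} {c : σ → k} {e : σ → ExteriorAlgebra k U}
    (he : e ∈ SC U (C ⊔ k ∙ c)) : ∃ g : ExteriorAlgebra k U, e - g • cst U c ∈ SC U C := by
  have : SC U (C ⊔ k ∙ c) ≤ SC U C ⊔ Submodule.span (ExteriorAlgebra k U) {cst U c} := by
    refine Submodule.span_le.2 ?_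
    rintro _ ⟨d, hd, rfl⟩
    obtain ⟨d', hd', z, hz, rfl⟩ := Submodule.mem_sup.1 hd
    obtain ⟨r, rfl⟩ := Submodule.mem_span_singleton.1 hz
    rw [cst_add, cst_smul]
    exact add_mem (Submodule.mem_sup_left (cst_mem_SC hd'))
      (Submodule.mem_sup_right (Submodule.smul_mem _ _ (Submodule.mem_span_singleton_self _)))
  obtain ⟨a, ha, z, hz, rfl⟩ := Submodule.mem_sup.1 (this he)
  obtain ⟨g, rfl⟩ := Submodule.mem_span_singleton.1 hz
  exact ⟨g, by simpa using ha⟩

lemma const_lemma (hq : ∀ α, q α ∈ ⋀[k]^2 U) (hL : Lifts q) {W : Submodule k U} {x : U}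
    (hx : x ∉ W) (s : Finset (σ → k))
    (hs : ∀ c ∈ Submodule.span k (s : Set (σ → k)), mu q (cst U c) ∈ I (W ⊔ k ∙ x)) :
    ∀ e ∈ SC U (Submodule.span k (s : Set (σ → k))), mu q e ∈ I W → e ∈ TW q W := by
  classical
  induction s using Finset.induction_on with
  | empty =>
    intro e he _
    have : SC U (Submodule.span k ((∅ : Finset (σ → k)) : Set (σ → k))) ≤ ⊥ := by
      refine Submodule.span_le.2 ?_
      rintro _ ⟨c, hc, rfl⟩
      simp only [Finset.coe_empty, Submodule.span_empty, SetLike.mem_coe, Submodule.mem_bot] at hc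
      simp [hc, cst_zero]
    rw [(Submodule.mem_bot _).1 (this he)]
    exact zero_mem _
  | insert c s _ ih =>
    rw [Finset.coe_insert, Submodule.span_insert, sup_comm] at hs ⊢
    set C := Submodule.span k (s : Set (σ → k)) with hC
    have hsC : ∀ c ∈ C, mu q (cst U c) ∈ I (W ⊔ k ∙ x) :=
      fun c hc => hs c (Submodule.mem_sup_left hc)
    have ih' := ih hsC
    intro e he hμ
    obtain ⟨g, hg⟩ := SC_sup he
    obtain ⟨w, hw⟩ := exists_w hq
      (hs c (Submodule.mem_sup_right (Submodule.mem_span_singleton_self c)))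
    suffices h : g • cst U c ∈ TW q W ⊔ SC U C by
      obtain ⟨t, ht, s1, hs1, hts⟩ := Submodule.mem_sup.1 h
      have h1 : e - t ∈ SC U C := by
        have : e - t = (e - g • cst U c) + s1 := by rw [← hts]; abel
        rw [this]; exact add_mem hg hs1
      have h2 := ih' (e - t) h1 (by rw [map_sub]; exact sub_mem hμ (mu_TW hq ht))
      simpa using add_mem h2 ht
    by_cases hwY : w ∈ YC q W x C
    · obtain ⟨c0, hc0, hc0'⟩ := hwY
      have h1 : cst U (c - c0) ∈ TW q W := by
        refine SW_le_TW W (Submodule.subset_span ⟨c - c0, ?_, rfl⟩)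
        have : mu q (cst U (c - c0)) =
            (ι k w * ι k x - mu q (cst U c0)) - (ι k w * ι k x - mu q (cst U c)) := by
          rw [cst_sub, map_sub]; abel
        rw [this]; exact sub_mem hc0' hw
      refine Submodule.smul_mem _ _ ?_
      have : cst U c = cst U (c - c0) + cst U c0 := by rw [cst_sub]; abel
      rw [this]
      exact add_mem (Submodule.mem_sup_left h1) (Submodule.mem_sup_right (cst_mem_SC hc0))
    · have h1 : SC U C ≤ Submodule.comap (mu q) (mulX (I (YC q W x C)) W x) := by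
        refine Submodule.span_le.2 ?_
        rintro _ ⟨d, hd, rfl⟩
        obtain ⟨w', hw'⟩ := exists_w hq (hsC d hd)
        exact ⟨ι k w', ι_mem_I ⟨d, hd, hw'⟩, by rw [← neg_sub]; exact neg_mem hw'⟩
      obtain ⟨y, hy, hy'⟩ := h1 hg
      have h2 : (y + g * ι k w) * ι k x ∈ I W := by
        have : (y + g * ι k w) * ι k x = mu q e - (mu q (e - g • cst U c) - y * ι k x) +
            g * (ι k w * ι k x - mu q (cst U c)) := by
          rw [map_sub, map_smul, smul_eq_mul]; noncomm_ring
        rw [this]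
        exact add_mem (sub_mem hμ hy') (I_mul_left hw _)
      have h3 : g * ι k w ∈ I (YC q W x C) := by
        have := I_mono (le_YC (q := q) W x C) (ann hx h2)
        simpa using sub_mem this hy
      obtain ⟨b, hb⟩ := mem_I_sup (ann hwY h3)
      have h4 : ι k w • cst U c ∈ TW q W := by
        rw [ι_smul_cst]
        apply hL
        rw [← ι_smul_cst, map_smul, smul_eq_mul]
        have : ι k w * mu q (cst U c) = -(ι k w * (ι k w * ι k x - mu q (cst U c))) := by
          rw [mul_sub, ← mul_assoc, ι_sq_zero]; simp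
        rw [this]
        exact neg_mem (I_mul_left hw _)
      have h5 : ∀ i ∈ I (YC q W x C), i • cst U c ∈ TW q W ⊔ SC U C := by
        intro i hi
        refine I_induction (P := fun i => i • cst U c ∈ TW q W ⊔ SC U C) (by simp) ?_ ?_ hi
        · rintro b y ⟨c0, hc0, hc0'⟩
          rw [mul_smul]
          refine Submodule.smul_mem _ _ ?_
          have h6 : ι k y • cst U c + ι k w • cst U c0 ∈ TW q W := by
            rw [ι_smul_cst, ι_smul_cst, ← lin_add]
            apply hL
            rw [lin_add, ← ι_smul_cst, ← ι_smul_cst, map_add, map_smul, map_smul, smul_eq_mul,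
              smul_eq_mul]
            have : ι k y * mu q (cst U c) + ι k w * mu q (cst U c0) =
                -(ι k y * (ι k w * ι k x - mu q (cst U c))) -
                  ι k w * (ι k y * ι k x - mu q (cst U c0)) := by
              rw [mul_sub, mul_sub, ← mul_assoc, ← mul_assoc, ι_anticomm y w]; noncomm_ring
            rw [this]
            exact sub_mem (neg_mem (I_mul_left hw _)) (I_mul_left hc0' _)
          have h7 : ι k w • cst U c0 ∈ SC U C := Submodule.smul_mem _ _ (cst_mem_SC hc0)
          simpa using sub_mem (Submodule.mem_sup_left (T := SC U C) h6)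
            (Submodule.mem_sup_right (S := TW q W) h7)
        · intro a b ha hb
          rw [add_smul]; exact add_mem ha hb
      have : g • cst U c = (g - b * ι k w) • cst U c + b • (ι k w • cst U c) := by
        rw [sub_smul, mul_smul]; abel
      rw [this]
      exact add_mem (h5 _ hb) (Submodule.mem_sup_left (Submodule.smul_mem _ _ h4))

/-- The space of constant syzygies modulo `W`. -/
def Const (q : σ → ExteriorAlgebra k U) (W : Submodule k U) : Submodule k (σ → k) where
  carrier := {c | mu q (cst U c) ∈ I W}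
  zero_mem' := by simp [cst_zero]
  add_mem' := by
    intro a b ha hb
    simp only [Set.mem_ofPred_eq, cst_add, map_add] at *
    exact add_mem ha hb
  smul_mem' := by
    intro r a ha
    simp only [Set.mem_ofPred_eq, cst_smul, map_smul] at *
    exact I_mul_left ha _

lemma SW1_lemma (hq : ∀ α, q α ∈ ⋀[k]^2 U) (hL : Lifts q) {W : Submodule k U} {x : U}
    (hx : x ∉ W) {e : σ → ExteriorAlgebra k U} (he : e ∈ SW q (W ⊔ k ∙ x))
    (hμ : mu q e ∈ I W) : e ∈ TW q W := by
  obtain ⟨s, hs⟩ : (Const q (W ⊔ k ∙ x)).FG := IsNoetherian.noetherian _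
  refine const_lemma hq hL hx s (fun c hc => ?_) e ?_ hμ
  · rw [hs] at hc; exact hc
  · rw [hs]
    refine Submodule.span_mono ?_ he
    rintro _ ⟨c, hc, rfl⟩
    exact ⟨c, hc, rfl⟩

lemma good_step (hq : ∀ α, q α ∈ ⋀[k]^2 U) [FiniteDimensional k U] (hL : Lifts q)
    {W : Submodule k U} {x : U} (hx : x ∉ W) (h1 : Good q (W ⊔ k ∙ x))
    (h2 : Good q (W2 q W x)) : Good q W := by
  intro e he
  have h3 : TW q (W ⊔ k ∙ x) ≤ (TW q W ⊔ SW q (W ⊔ k ∙ x)) ⊔ LinearMap.range (rx σ x) := by
    refine TW_le (fun e he => ?_) ((Kz_le_TW W).trans (le_sup_left.trans le_sup_left))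
      (le_sup_right.trans le_sup_left) ((L0_le_TW W).trans (le_sup_left.trans le_sup_left))
    obtain ⟨f, hf⟩ := PW1_decomp he
    have : e = (e - rx σ x f) + rx σ x f := by abel
    rw [this]
    exact add_mem (Submodule.mem_sup_left (Submodule.mem_sup_left (PW_le_TW W hf)))
      (Submodule.mem_sup_right ⟨f, rfl⟩)
  obtain ⟨a, ha, _, ⟨f, rfl⟩, hae⟩ := Submodule.mem_sup.1 (h3 (h1 e (I_mono le_sup_left he)))
  obtain ⟨t, ht, s, hs, rfl⟩ := Submodule.mem_sup.1 ha
  obtain ⟨y, hy, hy'⟩ := mu_SW1 hq hs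
  have h4 : (mu q f + y) * ι k x ∈ I W := by
    have : (mu q f + y) * ι k x = mu q e - mu q t - (mu q s - y * ι k x) := by
      rw [← hae, map_add, map_add, mu_rx hq, add_mul]; abel
    rw [this]
    exact sub_mem (sub_mem he (mu_TW hq ht)) hy'
  have h5 : mu q f ∈ I (W2 q W x) := by
    simpa using sub_mem (I_mono (le_W2 q W x) (ann hx h4)) hy
  have h6 : rx σ x f ∈ TW q W ⊔ SW q (W ⊔ k ∙ x) := rx_TW2 hq hL W x (h2 f h5)
  have h7 : e ∈ TW q W ⊔ SW q (W ⊔ k ∙ x) := by
    rw [← hae]; exact add_mem ha h6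
  obtain ⟨t', ht', s', hs', rfl⟩ := Submodule.mem_sup.1 h7
  refine add_mem ht' (SW1_lemma hq hL hx hs' ?_)
  have := sub_mem he (mu_TW hq ht')
  simpa using this

lemma good_top (hq : ∀ α, q α ∈ ⋀[k]^2 U) : Good q ⊤ := by
  intro e _
  choose c hc using fun α => exists_sub_mem_I_top (e α)
  have : e = (e - cst U c) + cst U c := by abel
  rw [this]
  refine add_mem (PW_le_TW _ fun α _ => hc α) (SW_le_TW _ (Submodule.subset_span ⟨c, ?_, rfl⟩))
  exact succ_mem_I_top (n := 1) (mu_cst_two hq c)

lemma good_all (hq : ∀ α, q α ∈ ⋀[k]^2 U) [FiniteDimensional k U] (hL : Lifts q)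
    (W : Submodule k U) : Good q W := by
  induction W using WellFoundedGT.induction with
  | ind W ih =>
    by_cases hW : W = ⊤
    · rw [hW]; exact good_top hq
    obtain ⟨x, hx⟩ : ∃ x, x ∉ W := by
      by_contra h
      push Not at h
      exact hW (Submodule.eq_top_iff'.2 h)
    have hlt : W < W ⊔ k ∙ x := by
      refine lt_of_le_of_ne le_sup_left fun h => hx ?_
      rw [h]; exact Submodule.mem_sup_right (Submodule.mem_span_singleton_self x)
    exact good_step hq hL hx (ih _ hlt) (ih _ (hlt.trans_le (le_W2 q W x)))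

/-- Colon ideals are generated by linear forms. -/
theorem colon (hq : ∀ α, q α ∈ ⋀[k]^2 U) [FiniteDimensional k U] (hL : Lifts q)
    {W : Submodule k U} {x : U} (hx : x ∉ W) {a : ExteriorAlgebra k U}
    (ha : a * ι k x ∈ JW q W) : a ∈ JW q (W2 q W x) :=
  colon_of_good hq hx (good_all hq hL _) ha

end Pool.Agent.H476Z.BK
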