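import Mathlib

set_option autoImplicit false

namespace Pool.Agent.H476Z.BK

open ExteriorAlgebra

variable {k : Type*} [Field k] {U : Type*} [AddCommGroup U] [Module k U]

/-- The left ideal of the exterior algebra generated by a space of linear forms. -/
def I (W : Submodule k U) : Ideal (ExteriorAlgebra k U) := Ideal.span (ι k '' (W : Set U))

lemma ι_anticomm (x y : U) : ι k x * ι k y = -(ι k y * ι k x) :=
  eq_neg_of_add_eq_zero_left (ι_add_mul_swap x y)

lemma exists_ι_mul (x : U) (a : ExteriorAlgebra k U) : ∃ b, ι k x * a = b * ι k x := by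
  induction a using ExteriorAlgebra.induction with
  | algebraMap r => exact ⟨algebraMap k _ r, (Algebra.commutes r _).symm⟩
  | ι y => exact ⟨-ι k y, by rw [ι_anticomm, neg_mul]⟩
  | mul a b ha hb =>
    obtain ⟨a', ha⟩ := ha
    obtain ⟨b', hb⟩ := hb
    exact ⟨a' * b', by rw [← mul_assoc, ha, mul_assoc, hb, mul_assoc]⟩
  | add a b ha hb =>
    obtain ⟨a', ha⟩ := ha
    obtain ⟨b', hb⟩ := hb
    exact ⟨a' + b', by rw [mul_add, ha, hb, add_mul]⟩

lemma exists_mul_ι (x : U) (a : ExteriorAlgebra k U) : ∃ b, a * ι k x = ι k x * b := by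
  induction a using ExteriorAlgebra.induction with
  | algebraMap r => exact ⟨algebraMap k _ r, (Algebra.commutes r _)⟩
  | ι y => exact ⟨-ι k y, by rw [ι_anticomm, mul_neg]⟩
  | mul a b ha hb =>
    obtain ⟨a', ha⟩ := ha
    obtain ⟨b', hb⟩ := hb
    exact ⟨a' * b', by rw [mul_assoc, hb, ← mul_assoc, ha, mul_assoc]⟩
  | add a b ha hb =>
    obtain ⟨a', ha⟩ := ha
    obtain ⟨b', hb⟩ := hb
    exact ⟨a' + b', by rw [add_mul, ha, hb, mul_add]⟩

lemma ι_mem_I {W : Submodule k U} {w : U} (hw : w ∈ W) : ι k w ∈ I W :=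
  Ideal.subset_span ⟨w, hw, rfl⟩

lemma mul_ι_mem_I {W : Submodule k U} {w : U} (hw : w ∈ W) (a : ExteriorAlgebra k U) :
    a * ι k w ∈ I W := Ideal.mul_mem_left _ _ (ι_mem_I hw)

lemma I_induction {W : Submodule k U} {P : ExteriorAlgebra k U → Prop}
    (h0 : P 0) (h1 : ∀ b, ∀ w ∈ W, P (b * ι k w)) (h2 : ∀ a b, P a → P b → P (a + b))
    {a : ExteriorAlgebra k U} (ha : a ∈ I W) : P a := by
  have : ∀ r, P (r * a) := by
    induction ha using Submodule.span_induction with
    | mem x hx => obtain ⟨w, hw, rfl⟩ := hx; exact fun r => h1 r w hw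
    | zero => intro r; rw [mul_zero]; exact h0
    | add x y _ _ hx hy => intro r; rw [mul_add]; exact h2 _ _ (hx r) (hy r)
    | smul s x _ hx => intro r; rw [smul_eq_mul, ← mul_assoc]; exact hx _
  simpa using this 1

lemma I_mul_right {W : Submodule k U} {a : ExteriorAlgebra k U} (ha : a ∈ I W)
    (b : ExteriorAlgebra k U) : a * b ∈ I W := by
  refine I_induction (P := fun a => a * b ∈ I W) (by simp) ?_ ?_ ha
  · intro c w hw
    obtain ⟨b', hb⟩ := exists_ι_mul w b
    rw [mul_assoc, hb, ← mul_assoc]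
    exact mul_ι_mem_I hw _
  · intro a c ha hc
    rw [add_mul]
    exact add_mem ha hc

lemma I_mul_left {W : Submodule k U} {a : ExteriorAlgebra k U} (ha : a ∈ I W)
    (b : ExteriorAlgebra k U) : b * a ∈ I W := Ideal.mul_mem_left _ _ ha

lemma I_smul {W : Submodule k U} {a : ExteriorAlgebra k U} (ha : a ∈ I W) (r : k) :
    r • a ∈ I W := by
  rw [Algebra.smul_def]; exact I_mul_left ha _

lemma I_mono {W W' : Submodule k U} (h : W ≤ W') : I W ≤ I W' :=
  Ideal.span_mono (Set.image_mono h)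

lemma I_bot : I (⊥ : Submodule k U) = ⊥ := by
  rw [eq_bot_iff]
  intro a ha
  refine I_induction (P := fun a => a ∈ (⊥ : Ideal (ExteriorAlgebra k U))) (by simp) ?_ ?_ ha
  · intro b w hw
    rw [Submodule.mem_bot] at hw
    simp [hw]
  · intro a b ha hb; exact add_mem ha hb

lemma mem_I_sup {W : Submodule k U} {x : U} {a : ExteriorAlgebra k U}
    (ha : a ∈ I (W ⊔ k ∙ x)) : ∃ b, a - b * ι k x ∈ I W := by
  refine I_induction (P := fun a => ∃ b, a - b * ι k x ∈ I W) ⟨0, by simp⟩ ?_ ?_ ha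
  · intro b w hw
    obtain ⟨w', hw', z, hz, rfl⟩ := Submodule.mem_sup.1 hw
    obtain ⟨r, rfl⟩ := Submodule.mem_span_singleton.1 hz
    refine ⟨r • b, ?_⟩
    have : b * ι k (w' + r • x) - r • b * ι k x = b * ι k w' := by
      rw [map_add, map_smul, mul_add, mul_smul_comm, smul_mul_assoc]; abel
    rw [this]
    exact mul_ι_mem_I hw' _
  · rintro a c ⟨b, hb⟩ ⟨d, hd⟩
    refine ⟨b + d, ?_⟩
    have : a + c - (b + d) * ι k x = (a - b * ι k x) + (c - d * ι k x) := by
      rw [add_mul]; abel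
    rw [this]
    exact add_mem hb hd

lemma mem_I_sup_of {W : Submodule k U} {x : U} {a b : ExteriorAlgebra k U}
    (h : a - b * ι k x ∈ I W) : a ∈ I (W ⊔ k ∙ x) := by
  have : a = (a - b * ι k x) + b * ι k x := by abel
  rw [this]
  exact add_mem (I_mono le_sup_left h)
    (mul_ι_mem_I (Submodule.mem_sup_right (Submodule.mem_span_singleton_self x)) _)

lemma mul_ι_mem_of_mem_sup {W : Submodule k U} {x : U} {a : ExteriorAlgebra k U}
    (ha : a ∈ I (W ⊔ k ∙ x)) : a * ι k x ∈ I W := by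
  obtain ⟨b, hb⟩ := mem_I_sup ha
  have : a * ι k x = (a - b * ι k x) * ι k x := by
    rw [sub_mul, mul_assoc, ι_sq_zero, mul_zero, sub_zero]
  rw [this]
  exact I_mul_right hb _

/-- Right contraction. -/
noncomputable def cR (φ : Module.Dual k U) : ExteriorAlgebra k U →ₗ[k] ExteriorAlgebra k U :=
  (CliffordAlgebra.contractRight (Q := (0 : QuadraticForm k U))).flip φ

lemma cR_mul_ι (φ : Module.Dual k U) (b : ExteriorAlgebra k U) (x : U) :
    cR φ (b * ι k x) = φ x • b - cR φ b * ι k x :=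
  CliffordAlgebra.contractRight_mul_ι (Q := (0 : QuadraticForm k U)) φ x b

lemma cR_ι (φ : Module.Dual k U) (x : U) : cR φ (ι k x) = algebraMap k _ (φ x) :=
  CliffordAlgebra.contractRight_ι (0 : QuadraticForm k U) φ x

lemma cR_mem_I {W : Submodule k U} {φ : Module.Dual k U} (hφ : ∀ w ∈ W, φ w = 0)
    {a : ExteriorAlgebra k U} (ha : a ∈ I W) : cR φ a ∈ I W := by
  refine I_induction (P := fun a => cR φ a ∈ I W) (by simp) ?_ ?_ ha
  · intro b w hw
    rw [cR_mul_ι, hφ w hw, zero_smul, zero_sub]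
    exact neg_mem (mul_ι_mem_I hw _)
  · intro a b ha hb
    rw [map_add]
    exact add_mem ha hb

lemma exists_dual {W : Submodule k U} {x : U} (hx : x ∉ W) :
    ∃ φ : Module.Dual k U, φ x = 1 ∧ ∀ w ∈ W, φ w = 0 := by
  obtain ⟨f, hf, hf'⟩ := Submodule.exists_dual_map_eq_bot_of_notMem hx inferInstance
  refine ⟨(f x)⁻¹ • f, by simp [inv_mul_cancel₀ hf], fun w hw => ?_⟩
  have : f w ∈ W.map f := ⟨w, hw, rfl⟩
  rw [hf', Submodule.mem_bot] at this
  simp [this]

/-- The annihilator of a linear form modulo an ideal of linear forms. -/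
lemma ann {W : Submodule k U} {x : U} (hx : x ∉ W) {a : ExteriorAlgebra k U}
    (ha : a * ι k x ∈ I W) : a ∈ I (W ⊔ k ∙ x) := by
  obtain ⟨φ, h1, h2⟩ := exists_dual hx
  have := cR_mem_I h2 ha
  rw [cR_mul_ι, h1, one_smul] at this
  exact mem_I_sup_of this

lemma mem_two {a : ExteriorAlgebra k U} (ha : a ∈ ⋀[k]^2 U) {P : ExteriorAlgebra k U → Prop}
    (h1 : ∀ u v, P (ι k u * ι k v)) (h2 : ∀ a b, P a → P b → P (a + b)) : P a := by
  have ha' : a ∈ LinearMap.range (ι k : U →ₗ[k] _) * LinearMap.range (ι k : U →ₗ[k] _) := by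
    rw [← pow_two]; exact ha
  refine Submodule.mul_induction_on ha' ?_ h2
  rintro _ ⟨u, rfl⟩ _ ⟨v, rfl⟩
  exact h1 u v

lemma ι_mul_ι_mem_two (u v : U) : ι k u * ι k v ∈ ⋀[k]^2 U := by
  have : ι k u * ι k v ∈
      LinearMap.range (ι k : U →ₗ[k] _) * LinearMap.range (ι k : U →ₗ[k] _) :=
    Submodule.mul_mem_mul ⟨u, rfl⟩ ⟨v, rfl⟩
  rw [← pow_two] at this
  exact this

lemma two_comm {q : ExteriorAlgebra k U} (hq : q ∈ ⋀[k]^2 U) (a : ExteriorAlgebra k U) :
    q * a = a * q := by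
  refine mem_two hq (P := fun q => q * a = a * q) ?_ ?_
  · intro u v
    induction a using ExteriorAlgebra.induction with
    | algebraMap r => exact (Algebra.commutes r _).symm
    | ι y =>
      rw [mul_assoc, ι_anticomm v y, mul_neg, ← mul_assoc, ι_anticomm u y, neg_mul, neg_neg,
        mul_assoc]
    | mul a b ha hb => rw [← mul_assoc, ha, mul_assoc, hb, mul_assoc]
    | add a b ha hb => rw [mul_add, add_mul, ha, hb]
  · intro a b ha hb
    rw [mul_add, add_mul, ha, hb]

lemma cR_two {q : ExteriorAlgebra k U} (hq : q ∈ ⋀[k]^2 U) (φ : Module.Dual k U) :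
    ∃ u, cR φ q = ι k u := by
  refine mem_two hq (P := fun q => ∃ u, cR φ q = ι k u) ?_ ?_
  · intro u v
    refine ⟨φ v • u - φ u • v, ?_⟩
    rw [cR_mul_ι, cR_ι, map_sub, map_smul, map_smul, Algebra.smul_def (φ u)]
  · rintro a b ⟨u, hu⟩ ⟨v, hv⟩
    exact ⟨u + v, by rw [map_add, map_add, hu, hv]⟩

/-- A quadric in `I (W + x)` is `u x` modulo `I W`. -/
lemma two_mem_I_sup {W : Submodule k U} {x : U} {q : ExteriorAlgebra k U} (hq : q ∈ ⋀[k]^2 U)
    (h : q ∈ I (W ⊔ k ∙ x)) : ∃ u, q - ι k u * ι k x ∈ I W := by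
  by_cases hx : x ∈ W
  · refine ⟨0, ?_⟩
    rw [sup_eq_left.2 ((Submodule.span_singleton_le_iff_mem _ _).2 hx)] at h
    simpa using h
  obtain ⟨φ, h1, h2⟩ := exists_dual hx
  have := cR_mem_I h2 (mul_ι_mem_of_mem_sup h)
  rw [cR_mul_ι, h1, one_smul] at this
  obtain ⟨u, hu⟩ := cR_two hq φ
  exact ⟨u, by rwa [hu] at this⟩

/-- Induction over the quadrics in `I W`. -/
lemma two_mem_I_induction [FiniteDimensional k U] {W : Submodule k U}
    {P : ExteriorAlgebra k U → Prop} (h0 : P 0)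
    (h1 : ∀ u, ∀ w ∈ W, P (ι k u * ι k w)) (h2 : ∀ a b, P a → P b → P (a + b))
    {q : ExteriorAlgebra k U} (hq : q ∈ ⋀[k]^2 U) (h : q ∈ I W) : P q := by
  classical
  obtain ⟨s, hs⟩ : W.FG := IsNoetherian.noetherian W
  subst hs
  induction s using Finset.induction_on generalizing q with
  | empty =>
    simp only [Finset.coe_empty, Submodule.span_empty, I_bot, Submodule.mem_bot] at h
    rw [h]; exact h0
  | insert x s _ ih =>
    rw [Finset.coe_insert, Submodule.span_insert, sup_comm] at h h1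
    obtain ⟨u, hu⟩ := two_mem_I_sup hq h
    have : q = (q - ι k u * ι k x) + ι k u * ι k x := by abel
    rw [this]
    refine h2 _ _ (ih (sub_mem hq (ι_mul_ι_mem_two _ _))
      (fun u w hw => h1 u w (Submodule.mem_sup_left hw)) hu) ?_
    exact h1 u x (Submodule.mem_sup_right (Submodule.mem_span_singleton_self x))

lemma exists_sub_mem_I_top (a : ExteriorAlgebra k U) :
    ∃ r : k, a - algebraMap k _ r ∈ I (⊤ : Submodule k U) := by
  induction a using ExteriorAlgebra.induction with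
  | algebraMap r => exact ⟨r, by simp⟩
  | ι y => exact ⟨0, by simpa using ι_mem_I Submodule.mem_top⟩
  | mul a b ha hb =>
    obtain ⟨r, ha⟩ := ha
    obtain ⟨s, hb⟩ := hb
    refine ⟨r * s, ?_⟩
    have : a * b - algebraMap k _ (r * s) =
        (a - algebraMap k _ r) * b + algebraMap k _ r * (b - algebraMap k _ s) := by
      rw [map_mul]; noncomm_ring
    rw [this]
    exact add_mem (I_mul_right ha _) (I_mul_left hb _)
  | add a b ha hb =>
    obtain ⟨r, ha⟩ := ha
    obtain ⟨s, hb⟩ := hb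
    refine ⟨r + s, ?_⟩
    have : a + b - algebraMap k _ (r + s) =
        (a - algebraMap k _ r) + (b - algebraMap k _ s) := by
      rw [map_add]; abel
    rw [this]
    exact add_mem ha hb

lemma succ_mem_I_top {n : ℕ} {a : ExteriorAlgebra k U} (ha : a ∈ ⋀[k]^(n + 1) U) :
    a ∈ I (⊤ : Submodule k U) := by
  have ha' : a ∈ LinearMap.range (ι k : U →ₗ[k] _) ^ n * LinearMap.range (ι k : U →ₗ[k] _) := by
    rw [← pow_succ]; exact ha
  refine Submodule.mul_induction_on ha' ?_ (fun _ _ => add_mem)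
  rintro b _ _ ⟨v, rfl⟩
  exact mul_ι_mem_I Submodule.mem_top _

end Pool.Agent.H476Z.BK
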