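import Pool.Agent.H476Z.BK.Bridge

set_option autoImplicit false
set_option linter.unusedSectionVars false

namespace Pool.Agent.H476Z.BK

open ExteriorAlgebra Module
open scoped DirectSum

variable {k : Type*} [Field k] {L : Type*} [LieRing L] [LieAlgebra k L]
variable {ℒ : ℕ → Submodule k L} [GradedLieAlgebra ℒ]
variable [FiniteDimensional k (ℒ 1)] [FiniteDimensional k (ℒ 2)]

/-- A bilinear form satisfying the Jacobi identity on a subspace comes from degree three. -/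
lemma exists_functional (h0 : ℒ 0 = ⊥) (V' : Submodule k (ℒ 1))
    (hH : Subsingleton (Hij (inducedGrading ℒ (LieSubalgebra.lieSpan k L
      ((ℒ 1).subtype '' (V' : Set (ℒ 1))))) 2 3))
    (β : ℒ 1 →ₗ[k] ℒ 2 →ₗ[k] k)
    (hβ : ∀ a ∈ V', ∀ b ∈ V', ∀ c ∈ V',
      β a (br2 ℒ b c) - β b (br2 ℒ a c) + β c (br2 ℒ a b) = 0) :
    ∃ lam : L →ₗ[k] k, ∀ a ∈ V', ∀ b ∈ V', ∀ c ∈ V',
      β a (br2 ℒ b c) = lam ⁅(a : L), ⁅(b : L), (c : L)⁆⁆ := by
  set M := LieSubalgebra.lieSpan k L ((ℒ 1).subtype '' (V' : Set (ℒ 1))) with hM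
  have hpr : ∀ x ∈ M, pr ℒ 1 x ∈ V' := by
    let K : LieSubalgebra k L :=
      { V'.comap (pr ℒ 1) with
        lie_mem' := fun {x y} _ _ => by
          change pr ℒ 1 ⁅x, y⁆ ∈ V'
          rw [pr_one_lie h0]; exact zero_mem _ }
    have : M ≤ K := by
      rw [hM, LieSubalgebra.lieSpan_le]
      rintro _ ⟨v, hv, rfl⟩
      change pr ℒ 1 (v : L) ∈ V'
      rw [pr_coe]; exact hv
    exact fun x hx => this hx
  let p1 : M →ₗ[k] ℒ 1 := pr ℒ 1 ∘ₗ M.toSubmodule.subtype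
  let p2 : M →ₗ[k] ℒ 2 := pr ℒ 2 ∘ₗ M.toSubmodule.subtype
  let B : M →ₗ[k] M →ₗ[k] k := β.compl₁₂ p1 p2 - (β.compl₁₂ p1 p2).flip
  have hB : ∀ x y : M, B x y = β (pr ℒ 1 x) (pr ℒ 2 y) - β (pr ℒ 1 y) (pr ℒ 2 x) :=
    fun x y => rfl
  let ω : M [⋀^Fin 2]→ₗ[k] k := altOfBilin B (fun x => by rw [hB, sub_self])
  have hω : ∀ v : Fin 2 → M, ω v =
      β (pr ℒ 1 (v 0)) (pr ℒ 2 (v 1)) - β (pr ℒ 1 (v 1)) (pr ℒ 2 (v 0)) := fun v => rfl
  have hz : ω ∈ cocycles (inducedGrading ℒ M) 2 3 := by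
    constructor
    · intro d x hx hd
      rw [Fin.sum_univ_two] at hd
      have h0' : (x 0 : L) ∈ ℒ (d 0) := hx 0
      have h1' : (x 1 : L) ∈ ℒ (d 1) := hx 1
      rw [hω]
      have e1 : β (pr ℒ 1 (x 0)) (pr ℒ 2 (x 1)) = 0 := by
        by_cases h : d 0 = 1
        · rw [pr_ne h1' (by omega), map_zero]
        · rw [pr_ne h0' h, map_zero, LinearMap.zero_apply]
      have e2 : β (pr ℒ 1 (x 1)) (pr ℒ 2 (x 0)) = 0 := by
        by_cases h : d 1 = 1
        · rw [pr_ne h0' (by omega), map_zero]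
        · rw [pr_ne h1' h, map_zero, LinearMap.zero_apply]
      rw [e1, e2, sub_zero]
    · intro x
      rw [ceDiff_two, hω, hω, hω]
      simp only [Matrix.cons_val_zero, Matrix.cons_val_one, LieSubalgebra.coe_bracket,
        pr_one_lie h0, map_zero, LinearMap.zero_apply, zero_sub]
      rw [pr_two_lie h0 (x 0 : L), pr_two_lie h0 (x 0 : L), pr_two_lie h0 (x 1 : L)]
      have := hβ _ (hpr _ (x 0).2) _ (hpr _ (x 1).2) _ (hpr _ (x 2).2)
      simp only [br2_apply] at this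
      linear_combination this
  obtain ⟨η, -, hη⟩ := SubQuot.le_of_subsingleton hH hz
  let η' : M.toSubmodule →ₗ[k] k :=
    (AlternatingMap.ofSubsingleton k M k (0 : Fin 1)).symm η
  obtain ⟨g, hg⟩ := LinearMap.exists_extend η'
  refine ⟨-g, fun a ha b hb c hc => ?_⟩
  have hmem : ∀ a ∈ V', (a : L) ∈ M := fun a ha =>
    LieSubalgebra.subset_lieSpan ⟨a, ha, rfl⟩
  have h1 := hη ![⟨a, hmem a ha⟩, ⁅(⟨b, hmem b hb⟩ : M), (⟨c, hmem c hc⟩ : M)⁆]
  rw [ceDiff_one, hω] at h1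
  simp only [Matrix.cons_val_zero, Matrix.cons_val_one, LieSubalgebra.coe_bracket,
    pr_one_lie h0, map_zero, LinearMap.zero_apply, sub_zero, pr_coe] at h1
  rw [br2_apply, h1, LinearMap.neg_apply, neg_inj]
  have h2 := LinearMap.congr_fun hg
    (⁅(⟨a, hmem a ha⟩ : M), ⁅(⟨b, hmem b hb⟩ : M), (⟨c, hmem c hc⟩ : M)⁆⁆ : M)
  refine Eq.trans ?_ h2.symm
  change η _ = η _
  congr 1
  funext t
  fin_cases t
  rfl

lemma lifts (h0 : ℒ 0 = ⊥) (hH : ∀ S : Set L, S ⊆ ℒ 1 →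
    Subsingleton (Hij (inducedGrading ℒ (LieSubalgebra.lieSpan k L S)) 2 3)) :
    Lifts (qq ℒ) := by
  intro W l hl
  let V' : Submodule k (ℒ 1) := W.dualCoannihilator
  have hV' : ∀ v, v ∈ V' ↔ ∀ w ∈ W, w v = 0 := fun v => Submodule.mem_dualCoannihilator v
  obtain ⟨lam, hlam⟩ := exists_functional h0 V'
    (hH _ (by rintro _ ⟨v, -, rfl⟩; exact v.2)) (beta l) (fun a ha b hb c hc => by
      rw [← form_mu_lin]
      refine form_eq_zero_of_mem_I hl 3 _ fun j => ?_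
      fin_cases j
      · exact (hV' a).1 ha
      · exact (hV' b).1 hb
      · exact (hV' c).1 hc)
  let l0 : Fin (finrank k (ℒ 2)) → Dual k (ℒ 1) := fun α =>
    lam ∘ₗ (brk k L).flip (lb ℒ α : L) ∘ₗ (ℒ 1).subtype
  have hl0 : ∀ (v : ℒ 1) (m : ℒ 2), beta l0 v m = lam ⁅(v : L), (m : L)⁆ := by
    intro v m
    conv_rhs => rw [← (lb ℒ).sum_repr m]
    rw [beta_apply, Submodule.coe_sum, lie_sum, map_sum]
    refine Finset.sum_congr rfl fun α _ => ?_
    simp [l0, brk_apply, mul_comm]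
  have h1 : lin k l0 ∈ L0 (qq ℒ) := by
    refine Submodule.subset_span ⟨l0, ?_, rfl⟩
    refine eq_zero_of_form (mu_lin_mem l0) fun v => ?_
    have hv : v = ![v 0, v 1, v 2] := by funext t; fin_cases t <;> rfl
    rw [hv, form_mu_lin, hl0, hl0, hl0, br2_coe, br2_coe, br2_coe, ← map_sub, ← map_add]
    have : ⁅(v 0 : L), ⁅(v 1 : L), (v 2 : L)⁆⁆ - ⁅(v 1 : L), ⁅(v 0 : L), (v 2 : L)⁆⁆ +
        ⁅(v 2 : L), ⁅(v 0 : L), (v 1 : L)⁆⁆ = 0 := by
      rw [← lie_lie, ← lie_skew (v 2 : L)]; simp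
    rw [this, map_zero]
  obtain ⟨C, hC⟩ := V'.exists_isCompl
  let P : ℒ 1 →ₗ[k] ℒ 1 := V'.subtype ∘ₗ V'.projectionOnto C hC
  have hP1 : ∀ v, P v ∈ V' := fun v => (V'.projectionOnto C hC v).2
  have hP2 : ∀ v ∈ V', P v = v := fun v hv =>
    congrArg Subtype.val (Submodule.projectionOnto_apply_left hC ⟨v, hv⟩)
  let l1 := l - l0
  let la : Fin (finrank k (ℒ 2)) → Dual k (ℒ 1) := fun α => l1 α - l1 α ∘ₗ P
  let lc : Fin (finrank k (ℒ 2)) → Dual k (ℒ 1) := fun α => l1 α ∘ₗ P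
  have h2 : lin k la ∈ PW _ W := by
    intro α _
    refine ι_mem_I ?_
    by_contra hn
    obtain ⟨x, hx1, hx2⟩ := exists_vec hn
    have := hP2 x ((hV' x).2 hx2)
    simp [la, this] at hx1
  have h3 : lin k lc ∈ SW (qq ℒ) W := by
    let vb := Module.finBasis k (ℒ 1)
    have : lin k lc = ∑ i, ι k (vb.coord i) •
        cst (Dual k (ℒ 1)) (fun α => l1 α (P (vb i))) := by
      funext α
      simp only [ι_smul_cst, Finset.sum_apply, lin]
      rw [← map_sum]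
      congr 1
      refine vb.ext fun j => ?_
      simp [lc, Finsupp.single_apply]
    rw [this]
    refine Submodule.sum_mem _ fun i _ => Submodule.smul_mem _ _
      (Submodule.subset_span ⟨_, ?_, rfl⟩)
    refine mem_I_of_form_homog (mu_cst_two qq_mem _) fun v hv => ?_
    have hv' : v = ![v 0, v 1] := by funext t; fin_cases t <;> rfl
    rw [hv', form_mu_cst, ← beta_apply]
    have e : beta l1 (P (vb i)) (br2 ℒ (v 0) (v 1)) =
        beta l (P (vb i)) (br2 ℒ (v 0) (v 1)) - beta l0 (P (vb i)) (br2 ℒ (v 0) (v 1)) := by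
      simp only [beta_apply, l1, Pi.sub_apply, LinearMap.sub_apply, sub_mul,
        Finset.sum_sub_distrib]
    rw [e, hlam _ (hP1 _) _ ((hV' _).2 (hv 0)) _ ((hV' _).2 (hv 1)), hl0, br2_coe, sub_self]
  have : l = l0 + (la + lc) := by
    funext α
    simp [la, lc, l1]
  rw [this, lin_add, lin_add]
  exact add_mem (L0_le_TW W h1) (add_mem (PW_le_TW W h2) (SW_le_TW W h3))

/-- The cochain on `L` attached to an element of the exterior algebra. -/
noncomputable def toCochain (ℒ : ℕ → Submodule k L) [GradedLieAlgebra ℒ] (i : ℕ) :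
    ExteriorAlgebra k (Dual k (ℒ 1)) →ₗ[k] L [⋀^Fin i]→ₗ[k] k where
  toFun a := (form a i).compLinearMap (pr ℒ 1)
  map_add' a b := by ext v; simp
  map_smul' r a := by ext v; simp

lemma toCochain_apply (i : ℕ) (a : ExteriorAlgebra k (Dual k (ℒ 1))) (x : Fin i → L) :
    toCochain ℒ i a x = form a i (fun j => pr ℒ 1 (x j)) := rfl

lemma toCochain_mem (h0 : ℒ 0 = ⊥) (i : ℕ) (a : ExteriorAlgebra k (Dual k (ℒ 1))) :
    toCochain ℒ i a ∈ cocycles ℒ i i := by
  constructor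
  · intro d x hx hd
    obtain ⟨j, hj⟩ : ∃ j, d j ≠ 1 := by
      by_contra h
      push Not at h
      simp [h] at hd
    rw [toCochain_apply]
    exact (form a i).map_coord_zero j (pr_ne (hx j) hj)
  · intro x
    rcases i with _ | i
    · rfl
    · rw [ceDiff_succ]
      refine Finset.sum_eq_zero fun s _ => Finset.sum_eq_zero fun t _ => ?_
      rw [toCochain_apply, (form a (i + 1)).map_coord_zero 0 (by simp [pr_one_lie h0]), mul_zero]

lemma top_vanish (h0 : ℒ 0 = ⊥) (n : ℕ) (hH : Subsingleton (Hij ℒ (n + 1) (n + 1))) :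
    ∀ a ∈ ⋀[k]^(n + 1) (Dual k (ℒ 1)), a ∈ JW (qq ℒ) ⊥ := by
  intro a ha
  obtain ⟨η, -, hη⟩ := SubQuot.le_of_subsingleton hH (toCochain_mem h0 (n + 1) a)
  have hη' : ∀ v : Fin (n + 1) → ℒ 1, form a (n + 1) v = ceDiff n η (fun j => (v j : L)) := by
    intro v
    rw [← hη, toCochain_apply]
    simp only [pr_coe]
  rcases n with _ | m
  · rw [eq_zero_of_form ha fun v => hη' v]
    exact zero_mem _
  choose b hb hb' using fun α =>
    form_surj ((η.curryLeft (lb ℒ α : L)).compLinearMap (ℒ 1).subtype)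
  have h1 : a + mu (qq ℒ) b ∈ ⋀[k]^(m + 1 + 1) (Dual k (ℒ 1)) := by
    refine add_mem ha ?_
    rw [mu_apply]
    refine Submodule.sum_mem _ fun α _ => ?_
    change _ ∈ LinearMap.range (ι k : Dual k (ℒ 1) →ₗ[k] _) ^ (m + 2)
    rw [pow_add]
    exact Submodule.mul_mem_mul (hb α) (qq_mem α)
  have h2 : a + mu (qq ℒ) b = 0 := by
    refine eq_zero_of_form h1 fun v => ?_
    rw [map_add, Pi.add_apply, AlternatingMap.add_apply, hη', ceDiff_succ, mu_apply, map_sum,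
      Finset.sum_apply, alt_sum_apply]
    have e : ∀ α, form (b α * qq ℒ α) (m + 1 + 1) v =
        ∑ s : Fin (m + 1), ∑ t ∈ Finset.Ici s, (-1) ^ ((s : ℕ) + t) *
          ((lb ℒ).coord α (br2 ℒ (v s.castSucc) (v t.succ)) *
            η (Matrix.vecCons (lb ℒ α : L)
              (fun j => (t.removeNth (s.castSucc.removeNth v) j : L)))) := by
      intro α
      rw [← two_comm (qq_mem α)]
      refine (form_two_mul (qq_mem α) (b α) m v).trans ?_
      simp only [form_qq, hb']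
      rfl
    simp only [e]
    rw [Finset.sum_comm (s := Finset.univ) (t := Finset.univ (α := Fin (m + 1))),
      ← Finset.sum_add_distrib]
    refine Finset.sum_eq_zero fun s _ => ?_
    rw [Finset.sum_comm, ← Finset.sum_add_distrib]
    refine Finset.sum_eq_zero fun t _ => ?_
    rw [← Finset.mul_sum]
    have e2 : η (Fin.cons ⁅(v s.castSucc : L), (v t.succ : L)⁆
        (t.removeNth (s.castSucc.removeNth fun j => (v j : L)))) =
        ∑ α, (lb ℒ).coord α (br2 ℒ (v s.castSucc) (v t.succ)) *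
            η (Matrix.vecCons (lb ℒ α : L)
              (fun j => (t.removeNth (s.castSucc.removeNth v) j : L))) := by
      rw [← br2_coe]
      conv_lhs => rw [← (lb ℒ).sum_repr (br2 ℒ (v s.castSucc) (v t.succ))]
      change η.curryLeft _ _ = _
      rw [Submodule.coe_sum, map_sum, alt_sum_apply]
      refine Finset.sum_congr rfl fun α _ => ?_
      rw [Submodule.coe_smul, map_smul]
      rfl
    rw [e2]
    ring
  refine mem_JW.2 ⟨-b, ?_⟩
  rw [map_neg, sub_neg_eq_add, h2]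
  exact zero_mem _

/-- A form in one variable as a linear form. -/
def ev1 : (L [⋀^Fin 1]→ₗ[k] k) →ₗ[k] L →ₗ[k] k where
  toFun η := (AlternatingMap.ofSubsingleton k L k (0 : Fin 1)).symm η
  map_add' _ _ := rfl
  map_smul' _ _ := rfl

lemma betti_two_le (h0 : ℒ 0 = ⊥) (hH : ∀ j, j ≠ 2 → Subsingleton (Hij ℒ 2 j)) :
    Module.Finite k (Hi ℒ 2) ∧
      betti ℒ 2 + finrank k (NW (qq ℒ) ⊥) ≤ finrank k (⋀[k]^2 (Dual k (ℒ 1))) := by
  let f : ⋀[k]^2 (Dual k (ℒ 1)) →ₗ[k] L [⋀^Fin 2]→ₗ[k] k :=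
    toCochain ℒ 2 ∘ₗ (⋀[k]^2 (Dual k (ℒ 1))).subtype
  have hf : ∀ x, f x ∈ cocycles ℒ 2 2 := fun x => toCochain_mem h0 2 x
  let Φ : ⋀[k]^2 (Dual k (ℒ 1)) →ₗ[k] Hi ℒ 2 :=
    DirectSum.lof k ℕ (fun j => Hij ℒ 2 j) 2 ∘ₗ SubQuot.lift (coboundaries ℒ 2 2) f hf
  have hs1 : Function.Surjective (SubQuot.lift (coboundaries ℒ 2 2) f hf) := by
    refine SubQuot.lift_surj f hf fun ω hω => ?_
    obtain ⟨a, ha, ha'⟩ := form_surj (ω.compLinearMap (ℒ 1).subtype)
    refine ⟨⟨a, ha⟩, ?_⟩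
    ext v
    change toCochain ℒ 2 a v = _
    rw [toCochain_apply, ha']
    let B : L →ₗ[k] L →ₗ[k] k :=
      ev1 ∘ₗ ω.curryLeft
    have hB : ∀ x y, B x y = ω ![x, y] := by
      intro x y
      change ω _ = ω _
      congr 1
      funext t; fin_cases t <;> rfl
    have h := bilin_ext (ℒ := ℒ)
      (f := B.compl₁₂ ((ℒ 1).subtype ∘ₗ pr ℒ 1) ((ℒ 1).subtype ∘ₗ pr ℒ 1)) (g := B) (by
        intro a b x hx y hy
        simp only [LinearMap.compl₁₂_apply, LinearMap.comp_apply, Submodule.subtype_apply]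
        rcases a with _ | a
        · rw [h0, Submodule.mem_bot] at hx; simp [hx]
        rcases b with _ | b
        · rw [h0, Submodule.mem_bot] at hy; simp [hy]
        by_cases hab : a = 0 ∧ b = 0
        · obtain ⟨rfl, rfl⟩ := hab
          rw [pr_same hx, pr_same hy]
        · have e : B x y = 0 := by
            rw [hB]
            refine hω.1 ![a + 1, b + 1] _ (fun j => by fin_cases j <;> assumption) ?_
            rw [Fin.sum_univ_two]
            simp only [Matrix.cons_val_zero, Matrix.cons_val_one]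
            omega
          rw [e]
          by_cases ha : a = 0
          · rw [pr_ne hy (by omega)]; simp
          · rw [pr_ne hx (by omega)]; simp) (v 0) (v 1)
    rw [LinearMap.compl₁₂_apply, hB, hB] at h
    have hv : v = ![v 0, v 1] := by funext t; fin_cases t <;> rfl
    conv_rhs => rw [hv, ← h]
    change ω _ = ω _
    congr 1
    funext t; fin_cases t <;> rfl
  have hs2 : Function.Surjective (DirectSum.lof k ℕ (fun j => Hij ℒ 2 j) 2) := by
    intro y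
    refine ⟨y 2, ?_⟩
    ext j
    by_cases hj : j = 2
    · subst hj; simp [DirectSum.lof_eq_of]
    · have := hH j hj
      exact Subsingleton.elim _ _
  have hs : Function.Surjective Φ := hs2.comp hs1
  refine ⟨Module.Finite.of_surjective Φ hs, ?_⟩
  have hk : (NW (qq ℒ) ⊥).comap (⋀[k]^2 (Dual k (ℒ 1))).subtype ≤ LinearMap.ker Φ := by
    rintro ⟨a, ha2⟩ ⟨ha, -⟩
    obtain ⟨s, hs, i, hi, hsi⟩ := Submodule.mem_sup.1 ha
    rw [Submodule.restrictScalars_mem, I_bot, Submodule.mem_bot] at hi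
    rw [hi, add_zero] at hsi
    have h1 : toCochain ℒ 2 s ∈ coboundaries ℒ 2 2 := by
      have : Submodule.span k (Set.range (qq ℒ)) ≤ (coboundaries ℒ 2 2).comap (toCochain ℒ 2) := by
        refine Submodule.span_le.2 ?_
        rintro _ ⟨α, rfl⟩
        refine ⟨AlternatingMap.ofSubsingleton k L k (0 : Fin 1) (-((lb ℒ).coord α ∘ₗ pr ℒ 2)),
          ?_, fun x => ?_⟩
        · intro d x hx hd
          rw [Fin.sum_univ_one] at hd
          simp [pr_ne (hx 0) hd]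
        · rw [ceDiff_one, toCochain_apply]
          have hv : (fun j => pr ℒ 1 (x j)) = ![pr ℒ 1 (x 0), pr ℒ 1 (x 1)] := by
            funext t; fin_cases t <;> rfl
          rw [hv, form_qq, br2_apply, ← pr_two_lie h0]
          simp
      exact this hs
    have h2 : SubQuot.lift (coboundaries ℒ 2 2) f hf ⟨a, ha2⟩ = 0 := by
      rw [SubQuot.lift_eq_zero]
      change toCochain ℒ 2 a ∈ _
      have : a = s := hsi.symm
      rw [this]; exact h1
    change DirectSum.lof k ℕ (fun j => Hij ℒ 2 j) 2 _ = 0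
    rw [h2, map_zero]
  have e1 := LinearMap.finrank_range_add_finrank_ker Φ
  rw [LinearMap.range_eq_top.2 hs, finrank_top] at e1
  have e2 := Submodule.finrank_mono hk
  rw [(Submodule.comapSubtypeEquivOfLe
    (show NW (qq ℒ) ⊥ ≤ ⋀[k]^2 (Dual k (ℒ 1)) from inf_le_right)).finrank_eq] at e2
  unfold betti
  omega

lemma le_betti_one (h0 : ℒ 0 = ⊥) (hfin : Module.Finite k (Hi ℒ 1)) :
    finrank k (Dual k (ℒ 1)) ≤ betti ℒ 1 := by
  let f : Dual k (ℒ 1) →ₗ[k] L [⋀^Fin 1]→ₗ[k] k := toCochain ℒ 1 ∘ₗ ι k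
  have hf : ∀ x, f x ∈ cocycles ℒ 1 1 := fun x => toCochain_mem h0 1 _
  let Φ : Dual k (ℒ 1) →ₗ[k] Hi ℒ 1 :=
    DirectSum.lof k ℕ (fun j => Hij ℒ 1 j) 1 ∘ₗ SubQuot.lift (coboundaries ℒ 1 1) f hf
  have hinj : Function.Injective Φ := by
    rw [← LinearMap.ker_eq_bot, LinearMap.ker_eq_bot']
    intro u hu
    have h1 : SubQuot.lift (coboundaries ℒ 1 1) f hf u = 0 := by
      have := congrArg (DirectSum.component k ℕ (fun j => Hij ℒ 1 j) 1) hu
      simpa [Φ] using this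
    rw [SubQuot.lift_eq_zero] at h1
    obtain ⟨η, -, hη⟩ := h1
    have h2 : ι k u ∈ ⋀[k]^1 (Dual k (ℒ 1)) := by
      change ι k u ∈ LinearMap.range (ι k : Dual k (ℒ 1) →ₗ[k] _) ^ 1
      rw [pow_one]; exact ⟨u, rfl⟩
    have h3 : ι k u = 0 := by
      refine eq_zero_of_form h2 fun v => ?_
      have := hη (fun j => (v j : L))
      change toCochain ℒ 1 (ι k u) _ = 0 at this
      rw [toCochain_apply] at this
      simpa only [pr_coe] using this
    exact (ι_eq_zero_iff u).1 h3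
  exact LinearMap.finrank_le_finrank_of_injective hinj

lemma subsingleton_Hij {i : ℕ} (h : Subsingleton (Hi ℒ i)) (j : ℕ) :
    Subsingleton (Hij ℒ i j) :=
  (DirectSum.of_injective (β := fun j => Hij ℒ i j) j).subsingleton

theorem main (h0 : ℒ 0 = ⊥) (hBK : IsBlochKato ℒ) (n : ℕ) (hn : HasCD ℒ n) :
    Module.Finite k (Hi ℒ 2) ∧
      0 ≤ ((n : ℤ) - 1) * (betti ℒ 1 : ℤ) ^ 2 - 2 * (n : ℤ) * (betti ℒ 2 : ℤ) := by
  obtain ⟨⟨⟨hfin, -⟩, h2⟩, hsub⟩ := hBK
  obtain ⟨hf2, hb2⟩ := betti_two_le h0 h2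
  refine ⟨hf2, ?_⟩
  rcases Nat.eq_zero_or_pos n with rfl | hpos
  · have := hn.2 1 one_pos
    have : betti ℒ 1 = 0 := Module.finrank_zero_of_subsingleton
    simp [this]
  have hL := lifts h0 fun S hS => (hsub S hS).2 3 (by norm_num)
  have ht := turan qq_mem hL n ⊥
    (top_vanish h0 n (subsingleton_Hij (hn.2 (n + 1) (Nat.lt_succ_self n)) _))
  have hb1 : (finrank k (Dual k (ℒ 1)) : ℤ) ≤ betti ℒ 1 := by
    exact_mod_cast le_betti_one h0 hfin
  have hb2' : (betti ℒ 2 : ℤ) ≤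
      (finrank k (⋀[k]^2 (Dual k (ℒ 1))) : ℤ) - finrank k (NW (qq ℒ) ⊥) := by
    have : (betti ℒ 2 : ℤ) + finrank k (NW (qq ℒ) ⊥) ≤ finrank k (⋀[k]^2 (Dual k (ℒ 1))) := by
      exact_mod_cast hb2
    linarith
  rw [finrank_bot, Nat.cast_zero, sub_zero] at ht
  have hn1 : (0 : ℤ) ≤ (n : ℤ) - 1 := by
    have : (1 : ℤ) ≤ n := by exact_mod_cast hpos
    linarith
  have h3 : ((n : ℤ) - 1) * (finrank k (Dual k (ℒ 1)) : ℤ) ^ 2 ≤
      ((n : ℤ) - 1) * (betti ℒ 1 : ℤ) ^ 2 :=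
    mul_le_mul_of_nonneg_left (pow_le_pow_left₀ (by positivity) hb1 2) hn1
  have h4 : 2 * (n : ℤ) * (betti ℒ 2 : ℤ) ≤ 2 * (n : ℤ) *
      ((finrank k (⋀[k]^2 (Dual k (ℒ 1))) : ℤ) - finrank k (NW (qq ℒ) ⊥)) :=
    mul_le_mul_of_nonneg_left hb2' (by positivity)
  linarith

end Pool.Agent.H476Z.BK
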