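import Pool.Agent.H476Z.BK.Ideal

set_option autoImplicit false
set_option linter.unusedSectionVars false

namespace Pool.Agent.H476Z.BK

open ExteriorAlgebra

variable {k : Type*} [Field k] {U : Type*} [AddCommGroup U] [Module k U]
variable {σ : Type*} [Fintype σ] [DecidableEq σ]

/-- The map `e ↦ ∑ e α * q α`. -/
noncomputable def mu (q : σ → ExteriorAlgebra k U) :
    (σ → ExteriorAlgebra k U) →ₗ[ExteriorAlgebra k U] ExteriorAlgebra k U :=
  Fintype.linearCombination (ExteriorAlgebra k U) q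

lemma mu_apply (q e : σ → ExteriorAlgebra k U) : mu q e = ∑ α, e α * q α := by
  simp [mu, Fintype.linearCombination_apply]

/-- Constant vectors. -/
noncomputable def cst (U : Type*) [AddCommGroup U] [Module k U] (c : σ → k) :
    σ → ExteriorAlgebra k U := fun α => algebraMap k _ (c α)

/-- Vectors of linear forms. -/
noncomputable def lin (k : Type*) [Field k] [Module k U] (l : σ → U) :
    σ → ExteriorAlgebra k U := fun α => ι k (l α)

lemma mu_cst (q : σ → ExteriorAlgebra k U) (c : σ → k) : mu q (cst U c) = ∑ α, c α • q α := by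
  simp [mu_apply, cst, Algebra.smul_def]

lemma ι_smul_cst (u : U) (c : σ → k) : ι k u • cst U c = lin k (fun α => c α • u) := by
  ext α
  simp only [cst, lin, Pi.smul_apply, smul_eq_mul, map_smul]
  rw [← Algebra.commutes, Algebra.smul_def]

lemma lin_add (l l' : σ → U) : lin k (l + l') = lin k l + lin k l' := by
  ext α; simp [lin]

lemma lin_sub (l l' : σ → U) : lin k (l - l') = lin k l - lin k l' := by
  ext α; simp [lin]

lemma cst_add (c c' : σ → k) : cst U (c + c') = cst U c + cst U c' := by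
  ext α; simp [cst]

lemma cst_sub (c c' : σ → k) : cst U (c - c') = cst U c - cst U c' := by
  ext α; simp [cst]

lemma cst_smul (r : k) (c : σ → k) :
    cst U (r • c) = algebraMap k (ExteriorAlgebra k U) r • cst U c := by
  ext α; simp [cst]

lemma cst_zero : cst U (0 : σ → k) = 0 := by
  ext α; simp [cst]

/-- Right multiplication by a linear form. -/
noncomputable def rx (σ : Type*) (x : U) :
    (σ → ExteriorAlgebra k U) →ₗ[ExteriorAlgebra k U] (σ → ExteriorAlgebra k U) where
  toFun f := fun α => f α * ι k x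
  map_add' f g := by ext α; simp [add_mul]
  map_smul' r f := by ext α; simp [mul_assoc]

lemma rx_apply (x : U) (f : σ → ExteriorAlgebra k U) (α : σ) :
    rx (k := k) σ x f α = f α * ι k x := rfl

/-- Vectors with entries in `I W`. -/
def PW (σ : Type*) (W : Submodule k U) :
    Submodule (ExteriorAlgebra k U) (σ → ExteriorAlgebra k U) :=
  Submodule.pi Set.univ (fun _ => I W)

/-- Koszul syzygies. -/
def Kz (q : σ → ExteriorAlgebra k U) :
    Submodule (ExteriorAlgebra k U) (σ → ExteriorAlgebra k U) :=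
  Submodule.span _ {e | ∃ α β, e = Pi.single α (q β) - Pi.single β (q α)}

/-- Constant syzygies modulo `W`. -/
def SW (q : σ → ExteriorAlgebra k U) (W : Submodule k U) :
    Submodule (ExteriorAlgebra k U) (σ → ExteriorAlgebra k U) :=
  Submodule.span _ {e | ∃ c, mu q (cst U c) ∈ I W ∧ e = cst U c}

/-- Linear syzygies. -/
def L0 (q : σ → ExteriorAlgebra k U) :
    Submodule (ExteriorAlgebra k U) (σ → ExteriorAlgebra k U) :=
  Submodule.span _ {e | ∃ l, mu q (lin k l) = 0 ∧ e = lin k l}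

/-- The obvious syzygies modulo `W`. -/
def TW (q : σ → ExteriorAlgebra k U) (W : Submodule k U) :
    Submodule (ExteriorAlgebra k U) (σ → ExteriorAlgebra k U) :=
  PW σ W ⊔ Kz q ⊔ SW q W ⊔ L0 q

/-- Linear syzygies modulo `W` lift. -/
def Lifts (q : σ → ExteriorAlgebra k U) : Prop :=
  ∀ (W : Submodule k U) (l : σ → U), mu q (lin k l) ∈ I W → lin k l ∈ TW q W

/-- The linear forms `u` with `u x ∈ (q) + I W`. -/
noncomputable def W2 (q : σ → ExteriorAlgebra k U) (W : Submodule k U) (x : U) : Submodule k U :=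
  (Submodule.span k (Set.range q) ⊔ (I W).restrictScalars k).comap
    ((LinearMap.mulRight k (ι k x)).comp (ι k))

lemma mem_W2 {q : σ → ExteriorAlgebra k U} {W : Submodule k U} {x u : U} :
    u ∈ W2 q W x ↔ ∃ c, ι k u * ι k x - mu q (cst U c) ∈ I W := by
  simp only [W2, Submodule.mem_comap, LinearMap.comp_apply, LinearMap.mulRight_apply,
    Submodule.mem_sup, Submodule.mem_span_range_iff_exists_fun, Submodule.restrictScalars_mem,
    mu_cst]
  constructor
  · rintro ⟨_, ⟨c, rfl⟩, z, hz, h⟩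
    exact ⟨c, by rw [← h]; simpa using hz⟩
  · rintro ⟨c, h⟩
    exact ⟨_, ⟨c, rfl⟩, _, h, by abel⟩

lemma le_W2 (q : σ → ExteriorAlgebra k U) (W : Submodule k U) (x : U) :
    W ⊔ k ∙ x ≤ W2 q W x := by
  intro u hu
  refine mem_W2.2 ⟨0, ?_⟩
  rw [cst_zero, map_zero, sub_zero]
  exact mul_ι_mem_of_mem_sup (ι_mem_I hu)

variable {q : σ → ExteriorAlgebra k U}

lemma mu_cst_two (hq : ∀ α, q α ∈ ⋀[k]^2 U) (c : σ → k) : mu q (cst U c) ∈ ⋀[k]^2 U := by
  rw [mu_cst]
  exact Submodule.sum_mem _ fun α _ => Submodule.smul_mem _ _ (hq α)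

lemma mu_rx (hq : ∀ α, q α ∈ ⋀[k]^2 U) (x : U) (f : σ → ExteriorAlgebra k U) :
    mu q (rx σ x f) = mu q f * ι k x := by
  simp only [mu_apply, rx_apply, Finset.sum_mul]
  refine Finset.sum_congr rfl fun α _ => ?_
  rw [mul_assoc, mul_assoc, two_comm (hq α)]

lemma mu_PW {W : Submodule k U} {e : σ → ExteriorAlgebra k U} (he : e ∈ PW σ W) :
    mu q e ∈ I W := by
  rw [mu_apply]
  exact Submodule.sum_mem _ fun α _ => I_mul_right (he α trivial) _

lemma mu_single (α : σ) (a : ExteriorAlgebra k U) : mu q (Pi.single α a) = a * q α := by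
  simp [mu, Fintype.linearCombination_apply_single]

lemma mu_Kz (hq : ∀ α, q α ∈ ⋀[k]^2 U) {e : σ → ExteriorAlgebra k U} (he : e ∈ Kz q) :
    mu q e = 0 := by
  have : Kz q ≤ LinearMap.ker (mu q) := by
    refine Submodule.span_le.2 ?_
    rintro _ ⟨α, β, rfl⟩
    simp only [SetLike.mem_coe, LinearMap.mem_ker, map_sub, mu_single]
    rw [two_comm (hq α), sub_self]
  exact this he

lemma mu_L0 {e : σ → ExteriorAlgebra k U} (he : e ∈ L0 q) : mu q e = 0 := by
  have : L0 q ≤ LinearMap.ker (mu q) := by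
    refine Submodule.span_le.2 ?_
    rintro _ ⟨l, hl, rfl⟩
    exact hl
  exact this he

lemma mu_SW {W : Submodule k U} {e : σ → ExteriorAlgebra k U} (he : e ∈ SW q W) :
    mu q e ∈ I W := by
  have : SW q W ≤ Submodule.comap (mu q) (I W) := by
    refine Submodule.span_le.2 ?_
    rintro _ ⟨c, hc, rfl⟩
    exact hc
  exact this he

lemma PW_le_TW (W : Submodule k U) : PW σ W ≤ TW q W :=
  le_sup_left.trans (le_sup_left.trans le_sup_left)

lemma Kz_le_TW (W : Submodule k U) : Kz q ≤ TW q W :=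
  le_sup_right.trans (le_sup_left.trans le_sup_left)

lemma SW_le_TW (W : Submodule k U) : SW q W ≤ TW q W := le_sup_right.trans le_sup_left

lemma L0_le_TW (W : Submodule k U) : L0 q ≤ TW q W := le_sup_right

lemma TW_le {W : Submodule k U} {N : Submodule (ExteriorAlgebra k U) (σ → ExteriorAlgebra k U)}
    (h1 : PW σ W ≤ N) (h2 : Kz q ≤ N) (h3 : SW q W ≤ N) (h4 : L0 q ≤ N) : TW q W ≤ N :=
  sup_le (sup_le (sup_le h1 h2) h3) h4

lemma mu_TW (hq : ∀ α, q α ∈ ⋀[k]^2 U) {W : Submodule k U} {e : σ → ExteriorAlgebra k U}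
    (he : e ∈ TW q W) : mu q e ∈ I W := by
  have : TW q W ≤ Submodule.comap (mu q) (I W) := by
    refine TW_le (fun e he => mu_PW he) (fun e he => ?_) (fun e he => mu_SW he) (fun e he => ?_)
    · rw [Submodule.mem_comap, mu_Kz hq he]; exact zero_mem _
    · rw [Submodule.mem_comap, mu_L0 he]; exact zero_mem _
  exact this he

/-- The left ideal `A x + I W`. -/
def mulX (A : Ideal (ExteriorAlgebra k U)) (W : Submodule k U) (x : U) :
    Ideal (ExteriorAlgebra k U) where
  carrier := {a | ∃ y ∈ A, a - y * ι k x ∈ I W}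
  zero_mem' := ⟨0, zero_mem _, by simp⟩
  add_mem' := by
    rintro a b ⟨y, hy, ha⟩ ⟨z, hz, hb⟩
    refine ⟨y + z, add_mem hy hz, ?_⟩
    have : a + b - (y + z) * ι k x = (a - y * ι k x) + (b - z * ι k x) := by
      rw [add_mul]; abel
    rw [this]; exact add_mem ha hb
  smul_mem' := by
    rintro r a ⟨y, hy, ha⟩
    refine ⟨r * y, Ideal.mul_mem_left _ _ hy, ?_⟩
    have : r • a - r * y * ι k x = r * (a - y * ι k x) := by
      rw [smul_eq_mul, mul_sub, mul_assoc]
    rw [this]; exact I_mul_left ha _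

lemma mem_mulX {A : Ideal (ExteriorAlgebra k U)} {W : Submodule k U} {x : U}
    {a : ExteriorAlgebra k U} : a ∈ mulX A W x ↔ ∃ y ∈ A, a - y * ι k x ∈ I W := Iff.rfl

lemma mulX_mono {A B : Ideal (ExteriorAlgebra k U)} (h : A ≤ B) (W : Submodule k U) (x : U) :
    mulX A W x ≤ mulX B W x := fun _ ⟨y, hy, ha⟩ => ⟨y, h hy, ha⟩

lemma exists_w (hq : ∀ α, q α ∈ ⋀[k]^2 U) {W : Submodule k U} {x : U} {c : σ → k}
    (hc : mu q (cst U c) ∈ I (W ⊔ k ∙ x)) : ∃ w, ι k w * ι k x - mu q (cst U c) ∈ I W := by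
  obtain ⟨u, hu⟩ := two_mem_I_sup (mu_cst_two hq c) hc
  exact ⟨u, by rw [← neg_sub]; exact neg_mem hu⟩

lemma mu_SW1 (hq : ∀ α, q α ∈ ⋀[k]^2 U) {W : Submodule k U} {x : U}
    {e : σ → ExteriorAlgebra k U} (he : e ∈ SW q (W ⊔ k ∙ x)) :
    mu q e ∈ mulX (I (W2 q W x)) W x := by
  have : SW q (W ⊔ k ∙ x) ≤ Submodule.comap (mu q) (mulX (I (W2 q W x)) W x) := by
    refine Submodule.span_le.2 ?_
    rintro _ ⟨c, hc, rfl⟩
    obtain ⟨w, hw⟩ := exists_w hq hc
    exact ⟨ι k w, ι_mem_I (mem_W2.2 ⟨c, hw⟩), by rw [← neg_sub]; exact neg_mem hw⟩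
  exact this he

lemma PW1_decomp {W : Submodule k U} {x : U} {e : σ → ExteriorAlgebra k U}
    (he : e ∈ PW σ (W ⊔ k ∙ x)) : ∃ f, e - rx σ x f ∈ PW σ W := by
  choose f hf using fun α => mem_I_sup (he α trivial)
  exact ⟨f, fun α _ => hf α⟩

/-- The ideal `(q) + I W`. -/
noncomputable def JW (q : σ → ExteriorAlgebra k U) (W : Submodule k U) :
    Ideal (ExteriorAlgebra k U) := I W ⊔ LinearMap.range (mu q)

lemma mem_JW {W : Submodule k U} {a : ExteriorAlgebra k U} :
    a ∈ JW q W ↔ ∃ e, a - mu q e ∈ I W := by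
  simp only [JW, Submodule.mem_sup, LinearMap.mem_range]
  constructor
  · rintro ⟨y, hy, _, ⟨e, rfl⟩, rfl⟩
    exact ⟨e, by simpa using hy⟩
  · rintro ⟨e, he⟩
    exact ⟨_, he, _, ⟨e, rfl⟩, by abel⟩

/-- All syzygies modulo `W` are obvious. -/
def Good (q : σ → ExteriorAlgebra k U) (W : Submodule k U) : Prop :=
  ∀ e, mu q e ∈ I W → e ∈ TW q W

lemma colon_of_good (hq : ∀ α, q α ∈ ⋀[k]^2 U) {W : Submodule k U} {x : U} (hx : x ∉ W)
    (hg : Good q (W ⊔ k ∙ x)) {a : ExteriorAlgebra k U} (ha : a * ι k x ∈ JW q W) :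
    a ∈ JW q (W2 q W x) := by
  obtain ⟨e, he⟩ := mem_JW.1 ha
  have h1 : mu q e ∈ I (W ⊔ k ∙ x) := mem_I_sup_of (b := a) (by rw [← neg_sub]; exact neg_mem he)
  have h2 : TW q (W ⊔ k ∙ x) ≤ Submodule.comap (mu q) (mulX (JW q (W2 q W x)) W x) := by
    refine TW_le (fun e he => ?_) (fun e he => ?_) (fun e he => ?_) (fun e he => ?_)
    · obtain ⟨f, hf⟩ := PW1_decomp he
      refine ⟨mu q f, mem_JW.2 ⟨f, by simp⟩, ?_⟩
      rw [← mu_rx hq, ← map_sub]
      exact mu_PW hf
    · rw [Submodule.mem_comap, mu_Kz hq he]; exact zero_mem _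
    · exact mulX_mono le_sup_left _ _ (mu_SW1 hq he)
    · rw [Submodule.mem_comap, mu_L0 he]; exact zero_mem _
  obtain ⟨y, hy, hy'⟩ := h2 (hg e h1)
  have h3 : (a - y) * ι k x ∈ I W := by
    have : (a - y) * ι k x = (a * ι k x - mu q e) + (mu q e - y * ι k x) := by
      rw [sub_mul]; abel
    rw [this]; exact add_mem he hy'
  have h4 : a - y ∈ JW q (W2 q W x) :=
    Submodule.mem_sup_left (I_mono (le_W2 q W x) (ann hx h3))
  simpa using add_mem h4 hy

lemma koszul_mem (c : σ → k) (α : σ) :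
    Pi.single α (mu q (cst U c)) - q α • cst U c ∈ Kz q := by
  have : Pi.single α (mu q (cst U c)) - q α • cst U c =
      ∑ β, algebraMap k (ExteriorAlgebra k U) (c β) •
        (Pi.single α (q β) - Pi.single β (q α) : σ → ExteriorAlgebra k U) := by
    ext γ
    simp only [mu_apply, cst, Pi.sub_apply, Pi.smul_apply, smul_eq_mul, Finset.sum_apply, mul_sub,
      Finset.sum_sub_distrib, Pi.single_apply, mul_ite, mul_zero, Finset.sum_ite_eq,
      Finset.mem_univ, if_true]
    rw [← Algebra.commutes]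
    split_ifs <;> simp
  rw [this]
  exact Submodule.sum_mem _ fun β _ => Submodule.smul_mem _ _
    (Submodule.subset_span ⟨α, β, rfl⟩)

lemma cst_mem_SW1 {W : Submodule k U} {x w : U} {c : σ → k}
    (hc : ι k w * ι k x - mu q (cst U c) ∈ I W) : cst U c ∈ SW q (W ⊔ k ∙ x) :=
  Submodule.subset_span ⟨c, mem_I_sup_of (b := ι k w) (by rw [← neg_sub]; exact neg_mem hc), rfl⟩

lemma rx_TW2 (hq : ∀ α, q α ∈ ⋀[k]^2 U) [FiniteDimensional k U] (hL : Lifts q)
    (W : Submodule k U) (x : U) :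
    TW q (W2 q W x) ≤ Submodule.comap (rx σ x) (TW q W ⊔ SW q (W ⊔ k ∙ x)) := by
  refine TW_le (fun e he => ?_) ?_ ?_ ?_
  · rw [Submodule.mem_comap, pi_eq_sum_univ' e, map_sum]
    refine Submodule.sum_mem _ fun α _ => ?_
    refine I_induction (P := fun a => rx σ x (a • (Pi.single α 1 : σ → ExteriorAlgebra k U)) ∈
      TW q W ⊔ SW q (W ⊔ k ∙ x)) (by simp) ?_ ?_ (he α trivial)
    · intro b w hw
      obtain ⟨c, hc⟩ := mem_W2.1 hw
      rw [mul_smul, map_smul]
      refine Submodule.smul_mem _ _ ?_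
      have : rx σ x (ι k w • (Pi.single α 1 : σ → ExteriorAlgebra k U)) =
          Pi.single α (ι k w * ι k x - mu q (cst U c)) +
            (Pi.single α (mu q (cst U c)) - q α • cst U c) + q α • cst U c := by
        ext γ
        simp only [rx_apply, Pi.smul_apply, Pi.add_apply, Pi.sub_apply, Pi.single_apply,
          smul_eq_mul]
        split_ifs <;> simp
      rw [this]
      refine add_mem (Submodule.mem_sup_left (add_mem (PW_le_TW W ?_)
        (Kz_le_TW W (koszul_mem c α)))) (Submodule.mem_sup_right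
          (Submodule.smul_mem _ _ (cst_mem_SW1 hc)))
      intro γ _
      rw [Pi.single_apply]
      split_ifs
      · exact hc
      · exact zero_mem _
    · intro a b ha hb
      rw [add_smul, map_add]
      exact add_mem ha hb
  · refine Submodule.span_le.2 ?_
    rintro _ ⟨α, β, rfl⟩
    have : rx σ x (Pi.single α (q β) - Pi.single β (q α)) =
        ι k x • (Pi.single α (q β) - Pi.single β (q α) : σ → ExteriorAlgebra k U) := by
      ext γ
      simp only [rx_apply, Pi.smul_apply, Pi.sub_apply, Pi.single_apply, smul_eq_mul, sub_mul,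
        mul_sub, ite_mul, mul_ite, zero_mul, mul_zero, two_comm (hq _) (ι k x)]
    rw [SetLike.mem_coe, Submodule.mem_comap, this]
    exact Submodule.mem_sup_left (Kz_le_TW W (Submodule.smul_mem _ _
      (Submodule.subset_span ⟨α, β, rfl⟩)))
  · refine Submodule.span_le.2 ?_
    rintro _ ⟨c, hc, rfl⟩
    have h1 : ∃ l : σ → U, lin k l ∈ SW q (W ⊔ k ∙ x) ∧
        mu q (lin k l) - mu q (cst U c) * ι k x ∈ I W := by
      refine two_mem_I_induction (P := fun a => ∃ l : σ → U, lin k l ∈ SW q (W ⊔ k ∙ x) ∧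
        mu q (lin k l) - a * ι k x ∈ I W) ?_ ?_ ?_ (mu_cst_two hq c) hc
      · have h0 : lin k (0 : σ → U) = 0 := by ext α; simp [lin]
        exact ⟨0, by rw [h0]; exact zero_mem _, by rw [h0]; simp⟩
      · intro u w hw
        obtain ⟨c', hc'⟩ := mem_W2.1 hw
        refine ⟨fun α => c' α • u, ?_, ?_⟩
        · rw [← ι_smul_cst]; exact Submodule.smul_mem _ _ (cst_mem_SW1 hc')
        · rw [← ι_smul_cst, map_smul, smul_eq_mul, mul_assoc, ← mul_sub, ← neg_sub]
          exact I_mul_left (neg_mem hc') _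
      · rintro a b ⟨l, hl, ha⟩ ⟨l', hl', hb⟩
        refine ⟨l + l', by rw [lin_add]; exact add_mem hl hl', ?_⟩
        have : mu q (lin k (l + l')) - (a + b) * ι k x =
            (mu q (lin k l) - a * ι k x) + (mu q (lin k l') - b * ι k x) := by
          rw [lin_add, map_add, add_mul]; abel
        rw [this]; exact add_mem ha hb
    obtain ⟨l, hl, hl'⟩ := h1
    have h2 : rx σ x (cst U c) = lin k (fun α => c α • x) := by
      ext α
      simp only [rx_apply, cst, lin, map_smul, Algebra.smul_def]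
    have h3 : lin k ((fun α => c α • x) - l) ∈ TW q W := by
      apply hL
      rw [lin_sub, map_sub, ← h2, mu_rx hq, ← neg_sub]
      exact neg_mem hl'
    rw [SetLike.mem_coe, Submodule.mem_comap, h2]
    rw [lin_sub] at h3
    simpa using add_mem (Submodule.mem_sup_left (T := SW q (W ⊔ k ∙ x)) h3)
      (Submodule.mem_sup_right (S := TW q W) hl)
  · refine Submodule.span_le.2 ?_
    rintro _ ⟨l, hl, rfl⟩
    have : rx σ x (lin k l) = -(ι k x • lin k l) := by
      ext γ
      simp only [rx_apply, lin, Pi.neg_apply, Pi.smul_apply, smul_eq_mul]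
      rw [ι_anticomm]
    rw [SetLike.mem_coe, Submodule.mem_comap, this]
    exact Submodule.mem_sup_left (L0_le_TW W (neg_mem (Submodule.smul_mem _ _
      (Submodule.subset_span ⟨l, hl, rfl⟩))))

end Pool.Agent.H476Z.BK
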